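import Mathlib
import Pool.Agent.W66.SC

set_option autoImplicit false

/-!
# Row sums of the correlation matrix over arbitrary sets of exponents

Adapted from `Pool/Agent/TH888/R/Row.lean` (sets of primes).
-/

namespace Pool.Agent.N652.FM

open Finset Filter Topology MeasureTheory
open Pool.Agent.W66S (geo_sum)
open Pool.Agent.H305R2 (log_nat_tendsto)

/-- abstract row sum over an arbitrary set of integers -/
lemma row_nat {κ K : ℝ} (hκ : 0 < κ) (hK : 0 < K) {b : ℕ} (hb : 2 ≤ b) (J : ℕ → ℕ → ℝ) (P : ℕ)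
    (hfar : ∀ q ≥ P, ∀ p : ℕ, (p : ℝ) ≤ κ * q / Real.log q → |J p q| ≤ K * (Real.log q / q ^ 2))
    (hmid : ∀ p ≥ P, ∀ q : ℕ, 2 * p ≤ q → |J p q| ≤ K * ((Real.log p / p) * (Real.log q / q)))
    (hnear : ∀ p ≥ P, ∀ q : ℕ, p < q → q ≤ 2 * p →
      |J p q| ≤ K * ((Real.log p / p) ^ 2 + ((b : ℝ) ^ (q - p))⁻¹ * (Real.log p / p))) :
    ∃ C : ℝ, 0 < C ∧ ∃ P' : ℕ, P ≤ P' ∧ 3 ≤ P' ∧ ∀ q ≥ P', ∀ T : Finset ℕ,
      (∀ p ∈ T, P' ≤ p ∧ p < q) → ∑ p ∈ T, |J p q| ≤
        C * ((Real.log q / q) *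
          (1 + ∑ p ∈ T.filter (fun p : ℕ => κ * q / Real.log q < (p : ℝ)), Real.log p / p)) := by
  obtain ⟨P3, hP3⟩ := eventually_atTop.1 (log_nat_tendsto.eventually_ge_atTop (1 + 2 * κ))
  refine ⟨K * κ + K + 4 * K, by positivity, P + P3 + 3, by omega, by omega,
    fun q hq T hTm => ?_⟩
  have hlq := hP3 q (by omega)
  have hq3 : (3 : ℝ) ≤ q := by exact_mod_cast (by omega : 3 ≤ q)
  have hq0 : (0 : ℝ) < q := by linarith
  have hlq0 : 0 < Real.log q := by linarith
  set w := Real.log q / q with hw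
  have hw0 : 0 < w := by positivity
  classical
  set F := T.filter (fun p : ℕ => (p : ℝ) ≤ κ * q / Real.log q) with hF
  set M := T.filter (fun p : ℕ => κ * q / Real.log q < (p : ℝ) ∧ 2 * p ≤ q) with hM
  set N := T.filter (fun p : ℕ => q < 2 * p) with hN
  set L := T.filter (fun p : ℕ => κ * q / Real.log q < (p : ℝ)) with hL
  have hwp0 : ∀ p : ℕ, 0 ≤ Real.log p / p := fun p =>
    div_nonneg (Real.log_natCast_nonneg p) (Nat.cast_nonneg p)
  set s := ∑ p ∈ L, Real.log p / (p : ℝ) with hs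
  have hs0 : 0 ≤ s := Finset.sum_nonneg fun p _ => hwp0 p
  have hsub : T ⊆ (F ∪ M) ∪ N := by
    intro p hp
    rw [mem_union, mem_union]
    by_cases h1 : (p : ℝ) ≤ κ * q / Real.log q
    · left; left; exact mem_filter.2 ⟨hp, h1⟩
    · by_cases h2 : 2 * p ≤ q
      · left; right; exact mem_filter.2 ⟨hp, not_le.1 h1, h2⟩
      · right; exact mem_filter.2 ⟨hp, by omega⟩
  have hsplit : ∑ p ∈ T, |J p q| ≤ ∑ p ∈ F, |J p q| + ∑ p ∈ M, |J p q| + ∑ p ∈ N, |J p q| := by
    have h0 : ∀ s t : Finset ℕ, ∑ p ∈ s ∪ t, |J p q| ≤ ∑ p ∈ s, |J p q| + ∑ p ∈ t, |J p q| := by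
      intro s t
      rw [← Finset.sum_union_inter]
      have : 0 ≤ ∑ p ∈ s ∩ t, |J p q| := Finset.sum_nonneg fun _ _ => abs_nonneg _
      linarith
    calc ∑ p ∈ T, |J p q| ≤ ∑ p ∈ (F ∪ M) ∪ N, |J p q| :=
          Finset.sum_le_sum_of_subset_of_nonneg hsub fun _ _ _ => abs_nonneg _
      _ ≤ ∑ p ∈ F ∪ M, |J p q| + ∑ p ∈ N, |J p q| := h0 _ _
      _ ≤ _ := by linarith [h0 F M]
  -- far
  have hsF : ∑ p ∈ F, |J p q| ≤ K * κ * w := by
    have hcard : (F.card : ℝ) ≤ κ * q / Real.log q := by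
      have h1 : F ⊆ Finset.Icc 1 ⌊κ * q / Real.log q⌋₊ := by
        intro p hp
        rw [hF, mem_filter] at hp
        rw [mem_Icc, Nat.le_floor_iff (by positivity)]
        have := (hTm p hp.1).1
        exact ⟨by omega, hp.2⟩
      have h2 := Finset.card_le_card h1
      rw [Nat.card_Icc] at h2
      calc (F.card : ℝ) ≤ (⌊κ * q / Real.log q⌋₊ : ℝ) := by exact_mod_cast (by omega)
        _ ≤ _ := Nat.floor_le (by positivity)
    calc ∑ p ∈ F, |J p q| ≤ ∑ p ∈ F, K * (Real.log q / q ^ 2) :=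
          Finset.sum_le_sum fun p hp => hfar q (by omega) p (mem_filter.1 hp).2
      _ = F.card * (K * (Real.log q / q ^ 2)) := by rw [Finset.sum_const, nsmul_eq_mul]
      _ ≤ (κ * q / Real.log q) * (K * (Real.log q / q ^ 2)) := by gcongr
      _ = K * κ * (1 / q) := by field_simp
      _ ≤ K * κ * w := by
          rw [hw]
          gcongr
          linarith
  -- middle
  have hsM : ∑ p ∈ M, |J p q| ≤ K * (w * s) := by
    have h1 : ∀ p ∈ M, |J p q| ≤ (K * w) * (Real.log p / p) := by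
      intro p hp
      rw [hM, mem_filter] at hp
      refine (hmid p (by have := (hTm p hp.1).1; omega) q hp.2.2).trans (le_of_eq ?_)
      rw [hw]; ring
    have h2 : ∑ p ∈ M, Real.log p / (p : ℝ) ≤ s := by
      refine Finset.sum_le_sum_of_subset_of_nonneg ?_ fun p _ _ => hwp0 p
      intro p hp
      rw [hM, mem_filter] at hp
      exact mem_filter.2 ⟨hp.1, hp.2.1⟩
    calc ∑ p ∈ M, |J p q| ≤ ∑ p ∈ M, (K * w) * (Real.log p / p) := Finset.sum_le_sum h1
      _ = (K * w) * ∑ p ∈ M, Real.log p / p := by rw [Finset.mul_sum]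
      _ ≤ (K * w) * s := by gcongr
      _ = _ := by ring
  -- near
  have hsN : ∑ p ∈ N, |J p q| ≤ 2 * K * w * s + 4 * K * w := by
    have hNL : N ⊆ L := by
      intro p hp
      rw [hN, mem_filter] at hp
      refine mem_filter.2 ⟨hp.1, ?_⟩
      have h1 : (q : ℝ) < 2 * p := by exact_mod_cast hp.2
      rw [div_lt_iff₀ hlq0]
      have h2 : (0 : ℝ) < p := by linarith
      nlinarith
    have hNw : ∀ p ∈ N, Real.log p / p ≤ 2 * w := by
      intro p hp
      rw [hN, mem_filter] at hp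
      have h1 := (hTm p hp.1)
      have hp0 : (0 : ℝ) < p := by exact_mod_cast (by omega : 0 < p)
      have h2 : (q : ℝ) / 2 ≤ p := by
        have : (q : ℝ) < 2 * p := by exact_mod_cast hp.2
        linarith
      calc Real.log p / p ≤ Real.log q / (q / 2) := by
            refine div_le_div₀ hlq0.le ?_ (by positivity) h2
            exact Real.log_le_log hp0 (by exact_mod_cast h1.2.le)
        _ = 2 * w := by rw [hw]; field_simp
    have h1 : ∀ p ∈ N, |J p q| ≤ K * (2 * w) * (Real.log p / p) +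
        K * (2 * w) * ((b : ℝ) ^ (q - p))⁻¹ := by
      intro p hp
      have hpw := hNw p hp
      rw [hN, mem_filter] at hp
      have h2 := hTm p hp.1
      have hwp : 0 ≤ Real.log p / p := hwp0 p
      refine (hnear p (by omega) q h2.2 (by omega)).trans ?_
      have h3 : (Real.log p / p) ^ 2 ≤ 2 * w * (Real.log p / p) := by nlinarith
      have h4 : ((b : ℝ) ^ (q - p))⁻¹ * (Real.log p / p) ≤ ((b : ℝ) ^ (q - p))⁻¹ * (2 * w) :=
        mul_le_mul_of_nonneg_left hpw (by positivity)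
      nlinarith
    have hgeo := geo_sum hb q N fun p hp => by
      rw [hN, mem_filter] at hp
      exact (hTm p hp.1).2
    have hs2 : ∑ p ∈ N, Real.log p / (p : ℝ) ≤ s :=
      Finset.sum_le_sum_of_subset_of_nonneg hNL fun p _ _ => hwp0 p
    calc ∑ p ∈ N, |J p q| ≤ ∑ p ∈ N, (K * (2 * w) * (Real.log p / p) +
          K * (2 * w) * ((b : ℝ) ^ (q - p))⁻¹) := Finset.sum_le_sum h1
      _ = K * (2 * w) * ∑ p ∈ N, Real.log p / (p : ℝ) +
          K * (2 * w) * ∑ p ∈ N, ((b : ℝ) ^ (q - p))⁻¹ := by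
          rw [Finset.sum_add_distrib, Finset.mul_sum, Finset.mul_sum]
      _ ≤ K * (2 * w) * s + K * (2 * w) * 2 := by gcongr
      _ = _ := by ring
  calc ∑ p ∈ T, |J p q| ≤ K * κ * w + K * (w * s) + (2 * K * w * s + 4 * K * w) := by linarith
    _ ≤ _ := by
        have h1 : 0 ≤ K * κ * w * s := by positivity
        have h2 : 0 ≤ K * w := by positivity
        have h3 : 0 ≤ K * w * s := by positivity
        nlinarith

end Pool.Agent.N652.FM
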