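import Mathlib
import Pool.Agent.N652.FM.Row
import Pool.Agent.TH888.R.Sh
import Pool.Agent.TH888.R.MeanU

set_option autoImplicit false

/-!
# Systems of nearly independent events indexed by all natural numbers

`Pool/Agent/TH888/R/Sys.lean` treats events indexed by the primes; here the index runs through all
natural numbers.
-/

namespace Pool.Agent.N652.FM

open Finset Filter Topology MeasureTheory
open Pool.Agent.W66S (moment_rows)
open Pool.Agent.TH888.R (wt wt_nonneg wt_le_one ff01 LL_rate)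
open Pool.Agent.W66X (far_sh mid_sh corr_le one_sh int_bdd)
open Pool.Agent.H447R2.ML (Sh)
open Pool.Agent.H305R2 (gg LL measurable_gg abs_gg_le_one LL_nonneg LL_cont
  LL_le_one ff measurable_ff ff_nonneg ff_le_one log_nat_tendsto)

variable {Ω : Type*} [MeasurableSpace Ω]

/-- `f q` is the indicator of the `q`-th event, `m q` its local mean, close to `c wt q`, and the row
sums of the correlation matrix are small; all natural indices. -/
structure NSys (μ : Measure Ω) (f m : ℕ → Ω → ℝ) (c : Ω → ℝ) : Prop where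
  fm : ∀ q, Measurable (f q)
  mm : ∀ q, Measurable (m q)
  f01 : ∀ q x, f q x = 0 ∨ f q x = 1
  m0 : ∀ q x, 0 ≤ m q x
  m1 : ∀ q x, m q x ≤ 1
  mean : ∃ K : ℝ, 0 ≤ K ∧ ∃ P : ℕ, ∀ᵐ x ∂μ, ∀ q ≥ P, |m q x - c x * wt q| ≤ K * (1 / q)
  cb : ∃ c0 c1 : ℝ, 0 < c0 ∧ ∀ᵐ x ∂μ, c0 ≤ c x ∧ c x ≤ c1
  row : ∃ κ C : ℝ, 0 < κ ∧ 0 < C ∧ ∃ P : ℕ, 3 ≤ P ∧
    (∀ q ≥ P, ∫ x, (f q x - m q x) ^ 2 ∂μ ≤ C * wt q) ∧
    ∀ q ≥ P, ∀ T : Finset ℕ, (∀ p ∈ T, P ≤ p ∧ p < q) →
      ∑ p ∈ T, |∫ x, (f p x - m p x) * (f q x - m q x) ∂μ| ≤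
        C * (wt q * (1 + ∑ p ∈ T.filter (fun p : ℕ => κ * q / Real.log q < (p : ℝ)), wt p))
  one : ∃ K : ℝ, 0 ≤ K ∧ ∃ P : ℕ, ∀ q ≥ P, ∫ x, f q x ∂μ ≤ K * wt q

/-- **A shift family is a system on every window.** -/
theorem nsys_sh {a : ℝ} (ha : 0 < a) {y y' : ℕ → ℝ → ℝ} (hym : ∀ p, Measurable (y p))
    (hfam : ∀ a0 a1 : ℝ, a0 < a1 → ∀ᶠ p : ℕ in atTop, Sh a a0 a1 p (y p) (y' p))
    (hw : ∀ b0 : ℝ, ∃ P : ℕ, ∀ p ≥ P, ∀ q ≥ P, p ≤ q → ∃ w : ℝ → ℝ, Measurable w ∧
      MonotoneOn w (Set.Icc (a * q + b0 - 1) (a * q + b0 + 2)) ∧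
      (∀ s ∈ Set.Icc (a * q + b0 - 1) (a * q + b0 + 2), ∀ t ∈ Set.Icc (a * q + b0 - 1) (a * q + b0 + 2),
        |w s - w t| ≤ 2 * |s - t|) ∧ w (a * q + b0 + 2) ≤ a * p + |b0| + 3 ∧
      ∀ t ∈ Set.Ioc b0 (b0 + 1), w (y q t) = y p t)
    (hnear : ∀ b0 : ℝ, ∃ K : ℝ, 0 < K ∧ ∃ P : ℕ, ∀ p ≥ P, ∀ q : ℕ, p < q → q ≤ 2 * p →
      ∫ t in Set.Ioc b0 (b0 + 1), ff p (y p t) * ff q (y q t) ≤
        K * ((Real.log p / p) ^ 2 + ((2 : ℝ) ^ (q - p))⁻¹ * (Real.log p / p))) (b0 : ℝ) :
    NSys (volume.restrict (Set.Ioc b0 (b0 + 1))) (fun p t => ff p (y p t)) (fun p t => LL p (y p t))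
      (fun _ => Real.exp Real.eulerMascheroniConstant / a) := by
  obtain ⟨P0, hP0⟩ := eventually_atTop.1 (hfam (b0 - 1) (b0 + 2) (by linarith))
  obtain ⟨κ, K1, hκ, hK1, P1, h1⟩ := far_sh ha b0
  obtain ⟨K2, hK2, P2, h2⟩ := mid_sh ha b0
  obtain ⟨K3, hK3, P3, h3⟩ := hnear b0
  obtain ⟨K4, hK4, P4, hP43, h4⟩ := corr_le ha b0
  obtain ⟨K5, hK5, P5, hP53, h5⟩ := one_sh ha b0
  obtain ⟨P6, h6⟩ := hw b0
  obtain ⟨P7, h7⟩ := eventually_atTop.1 (log_nat_tendsto.eventually_ge_atTop κ)
  obtain ⟨K8, hK8, hev8⟩ := LL_rate ha (|b0| + 3)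
  obtain ⟨P8, h8⟩ := eventually_atTop.1 hev8
  have hmem : ∀ᵐ t ∂(volume.restrict (Set.Ioc b0 (b0 + 1))), t ∈ Set.Ioc b0 (b0 + 1) :=
    ae_restrict_mem measurableSet_Ioc
  refine ⟨fun q => (measurable_ff q).comp (hym q), fun q => (LL_cont q).measurable.comp (hym q),
    fun q t => ff01 q _, fun q t => LL_nonneg q _, fun q t => LL_le_one q _, ?_, ?_, ?_, ?_⟩
  · refine ⟨K8, hK8.le, P0 + P8 + 2, ?_⟩
    filter_upwards [hmem] with t ht q hq
    have hq1 : 1 / (q : ℝ) ≤ 1 := by
      have : (2 : ℝ) ≤ q := by exact_mod_cast (by omega : 2 ≤ q)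
      rw [div_le_one (by linarith)]
      linarith
    have e1 := abs_le.1 ((hP0 q (by omega)).near t ⟨by linarith [ht.1], by linarith [ht.2]⟩)
    have e2 : |y q t - a * q| ≤ |b0| + 3 := by
      have e3 := abs_le.1 (le_refl |b0|)
      rw [abs_le]
      constructor <;> linarith [e1.1, e1.2, ht.1, ht.2, e3.1, e3.2]
    have e3 := h8 q (by omega) (y q t) e2
    unfold wt
    rw [mul_one_div]
    exact e3
  · refine ⟨Real.exp Real.eulerMascheroniConstant / a, Real.exp Real.eulerMascheroniConstant / a,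
      by positivity, Eventually.of_forall fun t => ⟨le_rfl, le_rfl⟩⟩
  · set Q := P0 + P1 + P2 + P3 + P4 + P5 + P6 + P7 with hQ
    set J : ℕ → ℕ → ℝ := fun p q => if Q ≤ p then
      ∫ t in Set.Ioc b0 (b0 + 1), gg p (y p t) * gg q (y q t) else 0 with hJ
    have hw0 : ∀ m : ℕ, 0 ≤ Real.log m / m := fun m =>
      div_nonneg (Real.log_natCast_nonneg m) (Nat.cast_nonneg m)
    set K := K1 + K2 + (K3 + 2 * K4) with hK
    obtain ⟨C, hC, P', hP', hP3', hrow⟩ := row_nat (κ := κ) (K := K) hκ (by positivity)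
      (b := 2) le_rfl J Q
      (by
        intro q hq p hp
        have hr : 0 ≤ Real.log q / (q : ℝ) ^ 2 := div_nonneg (Real.log_natCast_nonneg q) (by positivity)
        simp only [hJ]
        split_ifs with hpQ
        · have hlq := h7 q (by omega)
          have hq0 : (0 : ℝ) < q := by exact_mod_cast (by omega : 0 < q)
          have hpq : p ≤ q := by
            have hl : 0 < Real.log q := lt_of_lt_of_le hκ hlq
            have : (p : ℝ) ≤ q := by
              refine hp.trans ?_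
              rw [div_le_iff₀ hl]
              nlinarith
            exact_mod_cast this
          obtain ⟨w, w1, w2, w3, w4, w5⟩ := h6 p (by omega) q (by omega) hpq
          refine (h1 q (by omega) p (y q) (y' q) (y p) w (hP0 q (by omega)) w1 w2 w3 hp w4 w5).trans ?_
          exact mul_le_mul_of_nonneg_right (by rw [hK]; linarith) hr
        · rw [abs_zero]; positivity)
      (by
        intro p hp q hq
        simp only [hJ]
        rw [if_pos hp]
        refine (h2 p (by omega) q hq _ _ _ _ (hP0 p (by omega)) (hP0 q (by omega))).trans ?_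
        exact mul_le_mul_of_nonneg_right (by rw [hK]; linarith) (mul_nonneg (hw0 p) (hw0 q)))
      (by
        intro p hp q hq hq2
        simp only [hJ]
        rw [if_pos hp]
        have e1 := h4 p (by omega) q (by omega) _ _ _ _ (hP0 p (by omega)) (hP0 q (by omega))
        have e2 := h3 p (by omega) q hq hq2
        have hp2 : (2 : ℝ) ≤ p := by exact_mod_cast (by omega : 2 ≤ p)
        have hp0 : (0 : ℝ) < p := by linarith
        have hpq' : (p : ℝ) ≤ q := by exact_mod_cast hq.le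
        have hwq : Real.log q / q ≤ 2 * (Real.log p / p) := by
          have hq2' : (q : ℝ) ≤ p * p := by
            have : (q : ℝ) ≤ 2 * p := by exact_mod_cast hq2
            nlinarith
          have hlq : Real.log q ≤ 2 * Real.log p := by
            calc Real.log q ≤ Real.log (p * p) := Real.log_le_log (by linarith) hq2'
              _ = 2 * Real.log p := by rw [Real.log_mul hp0.ne' hp0.ne']; ring
          have hlp := Real.log_natCast_nonneg p
          calc Real.log q / q ≤ (2 * Real.log p) / p := div_le_div₀ (by positivity) hlq hp0 hpq'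
            _ = _ := by ring
        have hwp := hw0 p
        have e3 : K4 * ((Real.log p / p) * (Real.log q / q)) ≤ 2 * K4 * (Real.log p / p) ^ 2 := by
          calc K4 * ((Real.log p / p) * (Real.log q / q)) ≤
                K4 * ((Real.log p / p) * (2 * (Real.log p / p))) := by gcongr
            _ = _ := by ring
        have e4 : 0 ≤ ((2 : ℝ) ^ (q - p))⁻¹ * (Real.log p / p) := by positivity
        have e5 : 0 ≤ (Real.log p / p) ^ 2 := sq_nonneg _
        push_cast
        rw [hK]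
        calc _ ≤ _ := e1
          _ ≤ K3 * ((Real.log p / p) ^ 2 + ((2 : ℝ) ^ (q - p))⁻¹ * (Real.log p / p)) +
              2 * K4 * (Real.log p / p) ^ 2 := add_le_add e2 e3
          _ ≤ _ := by nlinarith [mul_nonneg hK1.le e5, mul_nonneg hK2.le e5, mul_nonneg hK1.le e4,
              mul_nonneg hK2.le e4, mul_nonneg hK4.le e4])
    refine ⟨κ, C + K5, hκ, by positivity, P', hP3', fun q hq => ?_, fun q hq T hT => ?_⟩
    · have e1 := (h5 q (by omega) _ _ (hP0 q (by omega))).2.2
      have e2 : ∫ t in Set.Ioc b0 (b0 + 1), (gg q (y q t)) ^ 2 ≤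
          ∫ t in Set.Ioc b0 (b0 + 1), |gg q (y q t)| := by
        have hmg : Measurable (fun t : ℝ => gg q (y q t)) := (measurable_gg q).comp (hym q)
        refine setIntegral_mono_on ?_ ?_ measurableSet_Ioc fun t _ => ?_
        · refine int_bdd (hmg.pow_const 2) (M := 1) (fun t => ?_) _ _
          rw [abs_pow]
          exact pow_le_one₀ (abs_nonneg _) (abs_gg_le_one _ _)
        · refine int_bdd hmg.abs (M := 1) (fun t => ?_) _ _
          rw [abs_abs]
          exact abs_gg_le_one _ _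
        · have h1 := abs_gg_le_one q (y q t)
          have h2 := abs_nonneg (gg q (y q t))
          rw [← sq_abs]
          nlinarith
      refine (e2.trans e1).trans ?_
      unfold wt
      exact mul_le_mul_of_nonneg_right (by linarith) (hw0 q)
    · have hsame : ∑ p ∈ T, |∫ t in Set.Ioc b0 (b0 + 1), gg p (y p t) * gg q (y q t)| =
          ∑ p ∈ T, |J p q| := by
        refine Finset.sum_congr rfl fun p hp => ?_
        have := (hT p hp).1
        simp only [hJ]
        rw [if_pos (hP'.trans this)]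
      have e1 := hrow q hq T hT
      rw [← hsame] at e1
      refine e1.trans ?_
      unfold wt
      refine mul_le_mul_of_nonneg_right (by linarith) ?_
      have : 0 ≤ ∑ p ∈ T.filter (fun p : ℕ => κ * q / Real.log q < (p : ℝ)), Real.log p / (p : ℝ) :=
        Finset.sum_nonneg fun p _ => hw0 p
      exact mul_nonneg (hw0 q) (by linarith)
  · refine ⟨K5, hK5.le, P0 + P5, fun q hq => ?_⟩
    exact (h5 q (by omega) _ _ (hP0 q (by omega))).2.1

/-! ### Selection of a subset with bounded short windows -/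

open Classical in
/-- greedy selection of a subset with bounded short windows -/
noncomputable def sel (S : Set ℕ) (κ : ℝ) (P : ℕ) : ℕ → Finset ℕ
  | 0 => ∅
  | q + 1 => if q ∈ S ∧ P ≤ q ∧
      ∑ p ∈ (sel S κ P q).filter (fun p : ℕ => κ * q / Real.log q < (p : ℝ)), wt p ≤ 1
      then insert q (sel S κ P q) else sel S κ P q

lemma sel_mono (S : Set ℕ) (κ : ℝ) (P : ℕ) : Monotone (sel S κ P) :=
  monotone_nat_of_le_succ fun q => by
    intro p hp
    unfold sel
    split_ifs
    · exact mem_insert_of_mem hp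
    · exact hp

lemma sel_mem {S : Set ℕ} {κ : ℝ} {P : ℕ} : ∀ n : ℕ, ∀ p ∈ sel S κ P n,
    p < n ∧ p ∈ S ∧ P ≤ p ∧
      ∑ r ∈ (sel S κ P p).filter (fun r : ℕ => κ * p / Real.log p < (r : ℝ)), wt r ≤ 1 := by
  intro n
  induction n with
  | zero => intro p hp; simp [sel] at hp
  | succ n ih =>
    intro p hp
    unfold sel at hp
    split_ifs at hp with hc
    · rw [mem_insert] at hp
      rcases hp with rfl | hp
      · exact ⟨by omega, hc.1, hc.2.1, hc.2.2⟩
      · obtain ⟨h1, h2⟩ := ih p hp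
        exact ⟨by omega, h2⟩
    · obtain ⟨h1, h2⟩ := ih p hp
      exact ⟨by omega, h2⟩

/-- an element of a later stage which is smaller than `n` is an element of the stage `n` -/
lemma sel_lt {S : Set ℕ} {κ : ℝ} {P n : ℕ} : ∀ N : ℕ, ∀ p ∈ sel S κ P N, p < n → p ∈ sel S κ P n := by
  intro N
  induction N with
  | zero => intro p hp; simp [sel] at hp
  | succ N ih =>
    intro p hp hpn
    have hp' := hp
    unfold sel at hp
    split_ifs at hp with hc
    · rw [mem_insert] at hp
      rcases hp with rfl | hp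
      · exact sel_mono S κ P (by omega : p + 1 ≤ n) hp'
      · exact ih p hp hpn
    · exact ih p hp hpn

/-- the weights of the selected elements are unbounded -/
lemma sel_div {S : Set ℕ} {κ : ℝ} (hκ : 0 < κ) (P : ℕ)
    (hdiv : ∀ B : ℝ, ∃ T : Finset ℕ, (∀ q ∈ T, q ∈ S) ∧ B < ∑ q ∈ T, wt q) :
    ∀ B : ℝ, ∃ n, B < ∑ q ∈ sel S κ P n, wt q := by
  by_contra hcon
  push Not at hcon
  obtain ⟨B, hB⟩ := hcon
  have hmono : Monotone fun n => ∑ q ∈ sel S κ P n, wt q := fun a b hab =>
    Finset.sum_le_sum_of_subset_of_nonneg (sel_mono S κ P hab) fun q _ _ => wt_nonneg q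
  obtain ⟨l, hl⟩ : ∃ l, Tendsto (fun n => ∑ q ∈ sel S κ P n, wt q) atTop (𝓝 l) := by
    rcases tendsto_atTop_of_monotone hmono with h | h
    · obtain ⟨n, hn⟩ := (h.eventually_gt_atTop B).exists
      exact absurd (hB n) (not_le.2 hn)
    · exact h
  have hle : ∀ n, ∑ q ∈ sel S κ P n, wt q ≤ l := fun n => hmono.ge_of_tendsto hl n
  obtain ⟨N0, hN0⟩ := (hl.eventually (lt_mem_nhds (show l - 1 < l by linarith))).exists
  obtain ⟨Q, hQ⟩ := eventually_atTop.1
    (((Pool.Agent.TH888.R.q_div_log hκ).eventually_ge_atTop (N0 : ℝ)).and (eventually_ge_atTop P))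
  have hall : ∀ q ≥ Q, q ∈ S → q ∈ sel S κ P (q + 1) := by
    intro q hq hqS
    obtain ⟨h1, h2⟩ := hQ q hq
    have h3 : ∑ p ∈ (sel S κ P q).filter (fun p : ℕ => κ * q / Real.log q < (p : ℝ)), wt p ≤ 1 := by
      have h4 : ∑ p ∈ (sel S κ P q).filter (fun p : ℕ => κ * q / Real.log q < (p : ℝ)), wt p +
          ∑ p ∈ sel S κ P N0, wt p ≤ ∑ p ∈ sel S κ P (max q N0), wt p := by
        rw [← Finset.sum_union]
        · refine Finset.sum_le_sum_of_subset_of_nonneg ?_ fun p _ _ => wt_nonneg p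
          intro p hp
          rw [mem_union, mem_filter] at hp
          rcases hp with ⟨h5, _⟩ | h5
          · exact sel_mono S κ P (le_max_left _ _) h5
          · exact sel_mono S κ P (le_max_right _ _) h5
        · rw [Finset.disjoint_left]
          intro p hp1 hp2
          rw [mem_filter] at hp1
          have h6 := (sel_mem N0 p hp2).1
          have h7 : (N0 : ℝ) < p := lt_of_le_of_lt h1 hp1.2
          have h8 : N0 < p := by exact_mod_cast h7
          omega
      have := hle (max q N0)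
      linarith
    unfold sel
    rw [if_pos ⟨hqS, h2, h3⟩]
    exact mem_insert_self _ _
  obtain ⟨T, hT1, hT2⟩ := hdiv (l + Q)
  have h1 : ∑ q ∈ T, wt q ≤ ∑ q ∈ T.filter (fun q => q < Q), (1 : ℝ) +
      ∑ q ∈ T.filter (fun q => ¬ q < Q), wt q := by
    rw [← Finset.sum_filter_add_sum_filter_not T (fun q => q < Q)]
    gcongr with q hq
    exact wt_le_one q
  have h2 : ∑ q ∈ T.filter (fun q => q < Q), (1 : ℝ) ≤ Q := by
    rw [Finset.sum_const, nsmul_eq_mul, mul_one]
    have : (T.filter (fun q => q < Q)).card ≤ Q := by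
      calc _ ≤ (range Q).card := Finset.card_le_card fun q hq => by
              rw [mem_filter] at hq
              exact mem_range.2 hq.2
        _ = Q := Finset.card_range Q
    exact_mod_cast this
  have h3 : ∑ q ∈ T.filter (fun q => ¬ q < Q), wt q ≤ l := by
    obtain ⟨N, hN⟩ : ∃ N, ∀ q ∈ T, q < N := ⟨T.sup id + 1, fun q hq => by
      have := Finset.le_sup (f := id) hq
      simp only [id] at this
      omega⟩
    refine le_trans (Finset.sum_le_sum_of_subset_of_nonneg ?_ fun p _ _ => wt_nonneg p) (hle N)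
    intro q hq
    rw [mem_filter] at hq
    exact sel_mono S κ P (by have := hN q hq.1; omega) (hall q (by omega) (hT1 q hq.1))
  linarith

/-! ### The two halves of the zero-one law -/

section

variable {μ : Measure Ω} [IsFiniteMeasure μ] {f m : ℕ → Ω → ℝ} {c : Ω → ℝ}

lemma NSys.f0 (h : NSys μ f m c) (q : ℕ) (x : Ω) : 0 ≤ f q x := by
  rcases h.f01 q x with h1 | h1 <;> rw [h1]; norm_num

lemma NSys.f1 (h : NSys μ f m c) (q : ℕ) (x : Ω) : f q x ≤ 1 := by
  rcases h.f01 q x with h1 | h1 <;> rw [h1]; norm_num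

lemma NSys.hb (h : NSys μ f m c) (q : ℕ) (x : Ω) : |f q x - m q x| ≤ 1 := by
  rw [abs_le]
  constructor <;> linarith [h.f0 q x, h.f1 q x, h.m0 q x, h.m1 q x]

/-- **Convergence part.** -/
theorem NSys.fin (h : NSys μ f m c) (S : Set ℕ)
    (hsum : Summable fun q : ℕ => S.indicator (fun q => wt q) q) :
    ∀ᵐ x ∂μ, {q : ℕ | q ∈ S ∧ f q x = 1}.Finite := by
  classical
  obtain ⟨K, hK, P, hone⟩ := h.one
  have hmeas : ∀ q, MeasurableSet {x | f q x = 1} := fun q =>
    (h.fm q) (measurableSet_singleton 1)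
  have hμ : ∀ q ≥ P, μ {x | f q x = 1} ≤ ENNReal.ofReal (K * wt q) := by
    intro q hq
    have h1 : ∫ x, f q x ∂μ = μ.real {x | f q x = 1} := by
      have e : f q = {x | f q x = 1}.indicator 1 := by
        funext x
        by_cases hx : f q x = 1
        · rw [Set.indicator_of_mem (show x ∈ {x | f q x = 1} from hx), hx]; rfl
        · rw [Set.indicator_of_notMem (show x ∉ {x | f q x = 1} from hx)]
          rcases h.f01 q x with h2 | h2
          · exact h2
          · exact absurd h2 hx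
      calc ∫ x, f q x ∂μ = ∫ x, {x | f q x = 1}.indicator 1 x ∂μ := by rw [← e]
        _ = _ := integral_indicator_one (hmeas q)
    have h2 := hone q hq
    rw [h1] at h2
    rw [← ofReal_measureReal]
    exact ENNReal.ofReal_le_ofReal h2
  set s : ℕ → Set Ω := fun q => if q ∈ S ∧ P ≤ q then {x | f q x = 1} else ∅ with hs
  have hfin : ∑' q, μ (s q) ≠ ⊤ := by
    have hle : ∀ q, μ (s q) ≤ ENNReal.ofReal (K * S.indicator (fun q => wt q) q) := by
      intro q
      simp only [hs]
      split_ifs with hq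
      · rw [Set.indicator_of_mem hq.1]
        exact hμ q hq.2
      · rw [measure_empty]; exact bot_le
    refine ne_top_of_le_ne_top ?_ (ENNReal.tsum_le_tsum hle)
    rw [← ENNReal.ofReal_tsum_of_nonneg _ (hsum.mul_left K)]
    · exact ENNReal.ofReal_ne_top
    · intro q
      exact mul_nonneg hK (Set.indicator_nonneg (fun q _ => wt_nonneg q) q)
  filter_upwards [ae_eventually_notMem hfin] with x hx
  obtain ⟨N, hN⟩ := eventually_atTop.1 hx
  refine (Set.finite_lt_nat (N + P)).subset ?_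
  intro q hq
  by_contra hlt
  have hge : N + P ≤ q := not_lt.1 hlt
  refine hN q (by omega) ?_
  simp only [hs]
  rw [if_pos ⟨hq.1, by omega⟩]
  exact hq.2

/-- **Divergence part.** -/
theorem NSys.inf (h : NSys μ f m c) (S : Set ℕ)
    (hdiv : ∀ B : ℝ, ∃ T : Finset ℕ, (∀ q ∈ T, q ∈ S) ∧ B < ∑ q ∈ T, wt q) :
    ∀ᵐ x ∂μ, {q : ℕ | q ∈ S ∧ f q x = 1}.Infinite := by
  classical
  obtain ⟨κ, C, hκ, hC, P1, hP13, hdiag, hrow⟩ := h.row
  obtain ⟨Km, hKm, P2, hmean⟩ := h.mean
  obtain ⟨c0, c1, hc0, hcb⟩ := h.cb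
  -- for large `q` the local mean is at least `c0 / 2 * wt q`
  obtain ⟨P3, hP3⟩ := eventually_atTop.1 (log_nat_tendsto.eventually_ge_atTop (2 * Km / c0))
  set P := P1 + P2 + P3 with hP
  have hml : ∀ᵐ x ∂μ, ∀ q ≥ P, c0 / 2 * wt q ≤ m q x := by
    filter_upwards [hmean, hcb] with x hx hc q hq
    have h1 := (abs_le.1 (hx q (by omega))).1
    have hq0 : (0 : ℝ) < q := by exact_mod_cast (by omega : 0 < q)
    have h2 : Km * (1 / q) ≤ c0 / 2 * wt q := by
      unfold wt
      have h3 := hP3 q (by omega)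
      rw [div_le_iff₀ hc0] at h3
      rw [mul_one_div, ← mul_div_assoc]
      refine div_le_div_of_nonneg_right ?_ hq0.le
      linarith
    have h3 : c0 * wt q ≤ c x * wt q := mul_le_mul_of_nonneg_right hc.1 (wt_nonneg q)
    linarith
  set V : ℕ → ℝ := fun n => ∑ q ∈ sel S κ P n, wt q with hV
  have hVun := sel_div hκ P hdiv
  have hVmono : Monotone V := fun a b hab =>
    Finset.sum_le_sum_of_subset_of_nonneg (sel_mono S κ P hab) fun q _ _ => wt_nonneg q
  have hVt : Tendsto V atTop atTop := by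
    refine tendsto_atTop_atTop_of_monotone hVmono fun B => ?_
    obtain ⟨n, hn⟩ := hVun B
    exact ⟨n, hn.le⟩
  have hV0 : ∀ n, 0 ≤ V n := fun n => Finset.sum_nonneg fun q _ => wt_nonneg q
  set G : ℕ → Ω → ℝ := fun q x => f q x - m q x with hG
  have hGm : ∀ q, Measurable (G q) := fun q => (h.fm q).sub (h.mm q)
  -- second moment
  have hmom : ∀ n, ∫ x, (∑ q ∈ sel S κ P n, G q x) ^ 2 ∂μ ≤ 5 * C * V n := by
    intro n
    refine (moment_rows (μ := μ) (G := G) hGm h.hb (sel S κ P n)).trans ?_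
    rw [hV]
    simp only
    rw [Finset.mul_sum]
    refine Finset.sum_le_sum fun q hq => ?_
    obtain ⟨hqn, hqS, hqP, hwin⟩ := sel_mem n q hq
    have h1 := hdiag q (by omega)
    have h2 := hrow q (by omega) ((sel S κ P n).filter (fun p => p < q)) (by
      intro p hp
      rw [mem_filter] at hp
      have := (sel_mem n p hp.1).2.2.1
      exact ⟨by omega, hp.2⟩)
    have h3 : ∑ p ∈ ((sel S κ P n).filter (fun p => p < q)).filter
        (fun p : ℕ => κ * q / Real.log q < (p : ℝ)), wt p ≤ 1 := by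
      refine le_trans (Finset.sum_le_sum_of_subset_of_nonneg ?_ fun p _ _ => wt_nonneg p) hwin
      intro p hp
      rw [mem_filter, mem_filter] at hp
      rw [mem_filter]
      exact ⟨sel_lt n p hp.1.1 hp.1.2, hp.2⟩
    have hw := wt_nonneg q
    have h4 : C * (wt q * (1 + ∑ p ∈ ((sel S κ P n).filter (fun p => p < q)).filter
        (fun p : ℕ => κ * q / Real.log q < (p : ℝ)), wt p)) ≤ C * (wt q * (1 + 1)) := by
      gcongr
    simp only [hG]
    nlinarith
  -- the number of events in `S` is infinite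
  set F : ℕ → Ω → ℝ := fun n x => ∑ q ∈ sel S κ P n, f q x with hF
  have hFm : ∀ n, Measurable (F n) := fun n => Finset.measurable_sum _ fun q _ => h.fm q
  have hkey : ∀ B : ℕ, μ {x | ∀ n, F n x ≤ B} = 0 := by
    intro B
    have hbd : ∀ᶠ n in atTop, (μ.real {x | ∀ n, F n x ≤ B}) ≤ 5 * C * 16 / (c0 ^ 2 * V n) := by
      filter_upwards [hVt.eventually_ge_atTop (4 * B / c0 + 1)] with n hn
      have hVn : 0 < V n := lt_of_lt_of_le (by positivity) hn
      have hgap : (B : ℝ) ≤ c0 / 4 * V n := by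
        have h1 : 4 * B / c0 ≤ V n := by linarith
        rw [div_le_iff₀ hc0] at h1
        linarith
      have hsub : ∀ᵐ x ∂μ, x ∈ {x | ∀ n, F n x ≤ B} →
          x ∈ {x | (c0 / 4 * V n) ^ 2 ≤ (∑ q ∈ sel S κ P n, G q x) ^ 2} := by
        filter_upwards [hml] with x hx hxB
        have h1 : c0 / 2 * V n ≤ ∑ q ∈ sel S κ P n, m q x := by
          simp only [hV]
          rw [Finset.mul_sum]
          exact Finset.sum_le_sum fun q hq => hx q (sel_mem n q hq).2.2.1
        have h2 : ∑ q ∈ sel S κ P n, G q x = F n x - ∑ q ∈ sel S κ P n, m q x := by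
          simp only [hG, hF]
          rw [Finset.sum_sub_distrib]
        have h3 : F n x ≤ B := hxB n
        have h4 : ∑ q ∈ sel S κ P n, G q x ≤ -(c0 / 4 * V n) := by
          rw [h2]; linarith
        have h5 : 0 ≤ c0 / 4 * V n := by positivity
        show (c0 / 4 * V n) ^ 2 ≤ _
        nlinarith
      have hint : Integrable (fun x => (∑ q ∈ sel S κ P n, G q x) ^ 2) μ := by
        have hmeas : Measurable (fun x => (∑ q ∈ sel S κ P n, G q x) ^ 2) :=
          (Finset.measurable_sum _ fun q _ => hGm q).pow_const 2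
        refine Integrable.of_bound hmeas.aestronglyMeasurable (((sel S κ P n).card : ℝ) ^ 2) ?_
        refine Eventually.of_forall fun x => ?_
        rw [Real.norm_eq_abs, abs_pow]
        refine pow_le_pow_left₀ (abs_nonneg _) ?_ 2
        refine (Finset.abs_sum_le_sum_abs _ _).trans ?_
        calc _ ≤ ∑ q ∈ sel S κ P n, (1 : ℝ) := Finset.sum_le_sum fun q _ => h.hb q x
          _ = _ := by simp
      have hmark := mul_meas_ge_le_integral_of_nonneg (μ := μ)
        (f := fun x => (∑ q ∈ sel S κ P n, G q x) ^ 2)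
        (Eventually.of_forall fun x => sq_nonneg _) hint ((c0 / 4 * V n) ^ 2)
      have h6 : μ.real {x | ∀ n, F n x ≤ B} ≤
          μ.real {x | (c0 / 4 * V n) ^ 2 ≤ (∑ q ∈ sel S κ P n, G q x) ^ 2} :=
        ENNReal.toReal_mono (measure_ne_top _ _) (measure_mono_ae hsub)
      have h7 := hmom n
      have h8 : (c0 / 4 * V n) ^ 2 * μ.real {x | ∀ n, F n x ≤ B} ≤ 5 * C * V n :=
        le_trans (mul_le_mul_of_nonneg_left h6 (sq_nonneg _)) (hmark.trans h7)
      rw [le_div_iff₀ (by positivity)]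
      have h9 : V n * (μ.real {x | ∀ n, F n x ≤ B} * (c0 ^ 2 * V n)) ≤ V n * (5 * C * 16) := by
        calc _ = 16 * ((c0 / 4 * V n) ^ 2 * μ.real {x | ∀ n, F n x ≤ B}) := by ring
          _ ≤ 16 * (5 * C * V n) := by linarith
          _ = _ := by ring
      exact le_of_mul_le_mul_left h9 hVn
    have hlim : Tendsto (fun n => 5 * C * 16 / (c0 ^ 2 * V n)) atTop (𝓝 0) :=
      (hVt.const_mul_atTop (by positivity)).const_div_atTop _
    have h1 : μ.real {x | ∀ n, F n x ≤ B} ≤ 0 := ge_of_tendsto hlim hbd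
    have h2 : μ.real {x | ∀ n, F n x ≤ B} = 0 := le_antisymm h1 measureReal_nonneg
    exact (measureReal_eq_zero_iff).1 h2
  have hall : ∀ᵐ x ∂μ, ∀ B : ℕ, ¬ ∀ n, F n x ≤ B := by
    rw [ae_all_iff]
    intro B
    rw [ae_iff]
    simpa using hkey B
  filter_upwards [hall] with x hx hfin
  obtain ⟨T, hT⟩ : ∃ T : Finset ℕ, ∀ q, q ∈ S → f q x = 1 → q ∈ T :=
    ⟨hfin.toFinset, fun q h1 h2 => by
      rw [Set.Finite.mem_toFinset]
      exact ⟨h1, h2⟩⟩
  refine hx T.card fun n => ?_
  calc F n x ≤ ∑ q ∈ (sel S κ P n).filter (fun q => q ∈ T), (1 : ℝ) := by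
        simp only [hF]
        rw [Finset.sum_filter]
        refine Finset.sum_le_sum fun q hq => ?_
        rcases h.f01 q x with h1 | h1
        · rw [h1]
          split_ifs <;> norm_num
        · rw [h1, if_pos (hT q (sel_mem n q hq).2.1 h1)]
    _ = (((sel S κ P n).filter (fun q => q ∈ T)).card : ℝ) := by simp
    _ ≤ T.card := by
        have : ((sel S κ P n).filter (fun q => q ∈ T)).card ≤ T.card :=
          Finset.card_le_card fun q hq => (mem_filter.1 hq).2
        exact_mod_cast this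

end

end Pool.Agent.N652.FM
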