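import Mathlib
import Pool.Agent.W66.XC
import Pool.Agent.H447R2.ML.R3
import Pool.Agent.H447R2.ML.P9
import Pool.Agent.TH888.R.Sh

set_option autoImplicit false

/-!
# The measure of the set where one of the late events of a lacunary sequence occurs
-/

namespace Pool.Agent.N652.FM

open Finset Filter Topology MeasureTheory
open Pool.Agent.TH888.R (wt wt_nonneg wt_le_one ff01)
open Pool.Agent.W66X (int_bdd)
open Pool.Agent.H447R2.ML (Sh Loc mean_shift pair_bound_sh mean_family pair_bound)
open Pool.Agent.H305R2 (ff measurable_ff ff_nonneg ff_le_one log_nat_tendsto)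

variable {a : ℝ} {y y' : ℕ → ℝ → ℝ}

lemma abs_ff_le (p : ℕ) (x : ℝ) : |ff p x| ≤ 1 := by
  rw [abs_of_nonneg (ff_nonneg p x)]; exact ff_le_one p x

lemma int_ff (hym : ∀ p, Measurable (y p)) (p : ℕ) (s t : ℝ) :
    IntegrableOn (fun x => ff p (y p x)) (Set.Ioc s t) :=
  int_bdd ((measurable_ff p).comp (hym p)) (M := 1) (fun x => abs_ff_le p _) s t

/-- first moment over arbitrary windows -/
lemma mean_gen (ha : 0 < a) (hym : ∀ p, Measurable (y p))
    (hfam : ∀ a0 a1 : ℝ, a0 < a1 → ∀ᶠ p : ℕ in atTop, Sh a a0 a1 p (y p) (y' p)) :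
    ∀ n : ℕ, ∀ s t : ℝ, s < t → t - s ≤ 2 ^ n →
    Tendsto (fun p : ℕ => (∫ x in Set.Ioc s t, ff p (y p x)) * (p / Real.log p)) atTop
      (𝓝 (Real.exp Real.eulerMascheroniConstant * (t - s) / a)) := by
  intro n
  induction n with
  | zero =>
    intro s t hst h1
    exact mean_shift ha (hfam s t hst) le_rfl hst le_rfl (by simpa using h1)
  | succ n ih =>
    intro s t hst h1
    set u := (s + t) / 2 with hu
    have hsu : s < u := by rw [hu]; linarith
    have hut : u < t := by rw [hu]; linarith
    have h2 : t - s ≤ 2 * 2 ^ n := by rw [pow_succ] at h1; linarith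
    have e1 := ih s u hsu (by rw [hu]; linarith)
    have e2 := ih u t hut (by rw [hu]; linarith)
    have e3 := e1.add e2
    have e4 : Real.exp Real.eulerMascheroniConstant * (u - s) / a +
        Real.exp Real.eulerMascheroniConstant * (t - u) / a =
        Real.exp Real.eulerMascheroniConstant * (t - s) / a := by ring
    rw [e4] at e3
    refine e3.congr fun p => ?_
    rw [← Set.Ioc_union_Ioc_eq_Ioc hsu.le hut.le,
      setIntegral_union (Set.Ioc_disjoint_Ioc_of_le le_rfl) measurableSet_Ioc
        (int_ff hym p s u) (int_ff hym p u t)]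
    ring

/-- the condition on the gap in the pair bounds -/
lemma gap_ok {a : ℝ} (ha : 0 < a) :
    ∀ᶠ q : ℕ in atTop, 64 / a * (Real.log q * Real.log (Real.log q)) ≤ q / 2 := by
  have h1 : ∀ᶠ x : ℝ in atTop, 64 / a * (Real.log x * Real.log (Real.log x)) ≤ x / 2 := by
    have h2 : ∀ᶠ x : ℝ in atTop, (Real.log x) ^ 2 ≤ 1 / (2 * (64 / a)) * x := by
      have h3 := (Real.isLittleO_pow_log_id_atTop (n := 2)).bound
        (show (0 : ℝ) < 1 / (2 * (64 / a)) by positivity)
      filter_upwards [h3, eventually_gt_atTop 0] with x hx hx0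
      rw [Real.norm_eq_abs, Real.norm_eq_abs, abs_of_nonneg (by positivity)] at hx
      simpa [abs_of_pos hx0] using hx
    filter_upwards [h2, Real.tendsto_log_atTop.eventually_ge_atTop 1, eventually_gt_atTop 0]
      with x hx hx1 hx0
    have h4 : Real.log (Real.log x) ≤ Real.log x := by
      have := Real.log_le_sub_one_of_pos (show 0 < Real.log x by linarith)
      linarith
    calc 64 / a * (Real.log x * Real.log (Real.log x)) ≤ 64 / a * (Real.log x * Real.log x) := by gcongr
      _ = 64 / a * (Real.log x) ^ 2 := by ring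
      _ ≤ 64 / a * (1 / (2 * (64 / a)) * x) := by gcongr
      _ = x / 2 := by field_simp
  exact tendsto_natCast_atTop_atTop.eventually h1

/-- simplification of the pair bound -/
lemma pair_simp {K l : ℝ} (hK : 0 ≤ K) (hl : 0 ≤ l) {p q : ℕ} (hp : 1 ≤ p) (hpq : 2 * p ≤ q) :
    K * (l + 1 / p) * (Real.log p / p) * (Real.log q / (q - p)) ≤
      K * (2 * (l + 1)) * (wt p * wt q) := by
  have hp1 : (1 : ℝ) ≤ p := by exact_mod_cast hp
  have hpq' : 2 * (p : ℝ) ≤ q := by exact_mod_cast hpq
  have hwp : 0 ≤ wt p := wt_nonneg p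
  have hlq : 0 ≤ Real.log q := Real.log_natCast_nonneg q
  have hq0 : (0 : ℝ) < q := by linarith
  have h6 : l + 1 / (p : ℝ) ≤ l + 1 := by
    have : 1 / (p : ℝ) ≤ 1 := by rw [div_le_one (by linarith)]; exact hp1
    linarith
  have h7 : Real.log q / (q - p) ≤ 2 * wt q := by
    unfold wt
    calc Real.log q / (q - p) ≤ Real.log q / (q / 2) :=
          div_le_div_of_nonneg_left hlq (by positivity) (by linarith)
      _ = _ := by field_simp
  have h8 : 0 ≤ Real.log q / (q - p) := div_nonneg hlq (by linarith)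
  calc K * (l + 1 / p) * (Real.log p / p) * (Real.log q / (q - p)) ≤
        K * (l + 1) * wt p * (2 * wt q) := by
        unfold wt at hwp h7 ⊢
        gcongr
    _ = _ := by ring

/-- pairs of exponents with `2 p ≤ q` -/
lemma pair_gen (ha : 0 < a)
    (hfam : ∀ a0 a1 : ℝ, a0 < a1 → ∀ᶠ p : ℕ in atTop, Sh a a0 a1 p (y p) (y' p))
    {s t : ℝ} (hst : s < t) : ∃ K : ℝ, 0 < K ∧ ∃ P : ℕ, ∀ p ≥ P, ∀ q : ℕ, 2 * p ≤ q →
    ∫ x in Set.Ioc s t, ff p (y p x) * ff q (y q x) ≤ K * (wt p * wt q) := by
  obtain ⟨K, hK, P1, h1⟩ := pair_bound_sh (a := a) (a0 := s - 1) (a1 := t + 1) (b0 := s) (b1 := t) ha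
    (by linarith) (by linarith)
  obtain ⟨P2, h2⟩ := eventually_atTop.1 (hfam (s - 1) (t + 1) (by linarith))
  obtain ⟨P3, hP3⟩ := eventually_atTop.1 (gap_ok ha)
  refine ⟨K * (2 * ((t - s) + 1)), by nlinarith, P1 + P2 + P3 + 1, fun p hp q hpq => ?_⟩
  have h3 := h1 p q (by omega) (by omega) _ _ _ _ (h2 p (by omega)) (h2 q (by omega)) (by
    have h4 := hP3 q (by omega)
    have h5 : 2 * (p : ℝ) ≤ q := by exact_mod_cast hpq
    linarith) s t le_rfl hst.le le_rfl
  exact h3.trans (pair_simp hK.le (by linarith) (by omega) hpq)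

/-- the set of the points of the window at which an event with index at least `M` occurs -/
def lateE (E : ℕ → ℝ → ℝ) (s t : ℝ) (M : ℕ) : Set ℝ :=
  {x | x ∈ Set.Ioc s t ∧ ∃ m, M ≤ m ∧ E m x = 1}

/-- the set of the points of the window at which an event with index at least `M` occurs -/
def late (y : ℕ → ℝ → ℝ) (q : ℕ → ℕ) (s t : ℝ) (M : ℕ) : Set ℝ :=
  lateE (fun m x => ff (q m) (y (q m) x)) s t M

/-- **The measure of the late events**, abstract version. -/
theorem tail_abstract {E : ℕ → ℝ → ℝ} (hEm : ∀ m, Measurable (E m))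
    (hE01 : ∀ m x, E m x = 0 ∨ E m x = 1) {w v : ℕ → ℝ} (hwnn : ∀ m, 0 ≤ w m)
    (hwpos : ∀ m, 1 ≤ m → 0 < w m) (hv : ∀ m, v m - v (m + 1) = w m) (hv0 : Tendsto v atTop (𝓝 0))
    (hvpos : ∀ m, 0 < v m) {s t L K : ℝ} (hL : 0 ≤ L) (hK : 0 < K) {M1 : ℕ}
    (hmean : Tendsto (fun m => (∫ x in Set.Ioc s t, E m x) / w m) atTop (𝓝 L))
    (hpair : ∀ m ≥ M1, ∀ k, m < k → ∫ x in Set.Ioc s t, E m x * E k x ≤ K * (w m * w k)) :
    Tendsto (fun M => volume.real (lateE E s t M) / v M) atTop (𝓝 L) := by
  classical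
  have hanti : Antitone v := antitone_nat_of_succ_le fun m => by linarith [hv m, hwnn m]
  have hvnn : ∀ m, 0 ≤ v m := fun m => (hvpos m).le
  have hab : ∀ m x, |E m x| ≤ 1 := fun m x => by
    rcases hE01 m x with h | h <;> rw [h] <;> norm_num
  -- sums of weights
  have hsumw : ∀ M N, M ≤ N → ∑ m ∈ Ico M N, w m = v M - v N := by
    intro M N hMN
    induction N, hMN using Nat.le_induction with
    | base => simp
    | succ N hMN ih =>
      rw [Finset.sum_Ico_succ_top hMN, ih, ← hv N]
      ring
  set Pm : ℕ → ℝ := fun m => ∫ x in Set.Ioc s t, E m x with hPm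
  set A : ℕ → Set ℝ := fun m => {x | x ∈ Set.Ioc s t ∧ E m x = 1} with hA
  have hAm : ∀ m, MeasurableSet (A m) := fun m =>
    measurableSet_Ioc.inter ((hEm m) (measurableSet_singleton 1))
  have hlate : ∀ M, lateE E s t M = ⋃ j : ℕ, A (M + j) := by
    intro M
    ext x
    simp only [lateE, hA, Set.mem_iUnion, Set.mem_ofPred_eq]
    constructor
    · rintro ⟨h1, m, hm, h2⟩
      exact ⟨m - M, h1, by rw [Nat.add_sub_cancel' hm]; exact h2⟩
    · rintro ⟨j, h1, h2⟩
      exact ⟨h1, M + j, by omega, h2⟩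
  have hlm : ∀ M, MeasurableSet (lateE E s t M) := fun M => by
    rw [hlate]; exact MeasurableSet.iUnion fun j => hAm _
  have hlfin : ∀ M, volume (lateE E s t M) ≠ ⊤ := fun M =>
    ne_top_of_le_ne_top (by simp [Real.volume_Ioc]) (measure_mono fun x hx => hx.1 : _ ≤ volume (Set.Ioc s t))
  have hAP : ∀ m, volume.real (A m) = Pm m := by
    intro m
    have e : ∀ x ∈ Set.Ioc s t, E m x = (A m).indicator 1 x := by
      intro x hx
      by_cases h1 : E m x = 1
      · rw [Set.indicator_of_mem (show x ∈ A m from ⟨hx, h1⟩), h1]; rfl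
      · rw [Set.indicator_of_notMem (show x ∉ A m from fun h => h1 h.2)]
        rcases hE01 m x with h2 | h2
        · exact h2
        · exact absurd h2 h1
    simp only [hPm]
    rw [setIntegral_congr_fun measurableSet_Ioc e, integral_indicator_one (hAm m),
      measureReal_restrict_apply (hAm m), Set.inter_eq_left.2 fun x hx => hx.1]
  -- the estimate with `ε`
  have hmain : ∀ ε : ℝ, 0 < ε → ∀ᶠ M in atTop,
      |volume.real (lateE E s t M) / v M - L| ≤ ε + K * v M := by
    intro ε hε
    obtain ⟨M2, hM2⟩ := eventually_atTop.1 ((Metric.tendsto_nhds.1 hmean) ε hε)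
    have hPl : ∀ m ≥ M2 + 1, (L - ε) * w m ≤ Pm m ∧ Pm m ≤ (L + ε) * w m := by
      intro m hm
      have h1 := hM2 m (by omega)
      rw [Real.dist_eq, abs_lt] at h1
      have h2 := hwpos m (by omega)
      have h3 : Pm m = Pm m / w m * w m := by field_simp
      constructor
      · rw [h3]; exact mul_le_mul_of_nonneg_right (by linarith) h2.le
      · rw [h3]; exact mul_le_mul_of_nonneg_right (by linarith) h2.le
    refine eventually_atTop.2 ⟨M1 + M2 + 1, fun M hM => ?_⟩
    have hsumP : ∀ N, M ≤ N → (L - ε) * (v M - v N) ≤ ∑ m ∈ Ico M N, Pm m ∧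
        ∑ m ∈ Ico M N, Pm m ≤ (L + ε) * (v M - v N) := by
      intro N hN
      rw [← hsumw M N hN, Finset.mul_sum, Finset.mul_sum]
      constructor
      · exact Finset.sum_le_sum fun m hm => (hPl m (by rw [mem_Ico] at hm; omega)).1
      · exact Finset.sum_le_sum fun m hm => (hPl m (by rw [mem_Ico] at hm; omega)).2
    have hLε : 0 ≤ L + ε := by linarith
    -- upper bound
    have hup : volume.real (lateE E s t M) ≤ (L + ε) * v M := by
      have h1 : volume (lateE E s t M) ≤ ENNReal.ofReal ((L + ε) * v M) := by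
        rw [hlate]
        refine (measure_iUnion_le _).trans (ENNReal.tsum_le_of_sum_range_le fun n => ?_)
        have h2 : ∑ j ∈ range n, volume (A (M + j)) = ENNReal.ofReal (∑ m ∈ Ico M (M + n), Pm m) := by
          rw [Finset.sum_Ico_eq_sum_range, Nat.add_sub_cancel_left,
            ENNReal.ofReal_sum_of_nonneg (fun j _ => by rw [← hAP]; exact measureReal_nonneg)]
          refine Finset.sum_congr rfl fun j _ => ?_
          have hne : volume (A (M + j)) ≠ ⊤ := ne_top_of_le_ne_top (by simp [Real.volume_Ioc])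
            (measure_mono fun x hx => hx.1 : _ ≤ volume (Set.Ioc s t))
          rw [← hAP, ofReal_measureReal hne]
        rw [h2]
        refine ENNReal.ofReal_le_ofReal (((hsumP (M + n) (by omega)).2).trans ?_)
        exact mul_le_mul_of_nonneg_left (by linarith [hvnn (M + n)]) hLε
      have h2 : 0 ≤ (L + ε) * v M := mul_nonneg hLε (hvnn M)
      exact ENNReal.toReal_le_of_le_ofReal h2 h1
    -- lower bound
    have hlow : ∀ N, M ≤ N → (L - ε) * (v M - v N) - K * v M ^ 2 ≤ volume.real (lateE E s t M) := by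
      intro N hN
      set T := Ico M N with hT
      set F : ℝ → ℝ := fun x => ∑ m ∈ T, E m x with hF
      have hFm : Measurable F := Finset.measurable_sum _ fun m _ => hEm m
      have hEE : ∀ m k, IntegrableOn (fun x => E m x * E k x) (Set.Ioc s t) := fun m k =>
        int_bdd ((hEm m).mul (hEm k)) (M := 1) (fun x => by
          show |E m x * E k x| ≤ 1
          rw [abs_mul]
          exact mul_le_one₀ (hab _ _) (abs_nonneg _) (hab _ _)) s t
      have hEi : ∀ m, IntegrableOn (E m) (Set.Ioc s t) := fun m => int_bdd (hEm m) (M := 1) (hab m) s t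
      have hFi : IntegrableOn F (Set.Ioc s t) := integrable_finsetSum _ fun m _ => hEi m
      have hF2 : ∀ x, F x ^ 2 = ∑ m ∈ T, ∑ k ∈ T, E m x * E k x := by
        intro x
        rw [sq]
        simp only [hF]
        rw [Finset.sum_mul_sum]
      have hF2i : IntegrableOn (fun x => F x ^ 2) (Set.Ioc s t) := by
        simp only [hF2]
        exact integrable_finsetSum _ fun m _ => integrable_finsetSum _ fun k _ => hEE m k
      have hind : ∀ x ∈ Set.Ioc s t, 2 * F x - F x ^ 2 ≤ (lateE E s t M).indicator 1 x := by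
        intro x hx
        by_cases h1 : x ∈ lateE E s t M
        · rw [Set.indicator_of_mem h1]
          show 2 * F x - F x ^ 2 ≤ 1
          nlinarith [sq_nonneg (F x - 1)]
        · rw [Set.indicator_of_notMem h1]
          have h2 : F x = 0 := by
            refine Finset.sum_eq_zero fun m hm => ?_
            rcases hE01 m x with h3 | h3
            · exact h3
            · exact absurd ⟨hx, m, by rw [hT, mem_Ico] at hm; exact hm.1, h3⟩ h1
          rw [h2]; norm_num
      have h1 : ∫ x in Set.Ioc s t, (2 * F x - F x ^ 2) ≤ volume.real (lateE E s t M) := by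
        have h2 : ∫ x in Set.Ioc s t, (lateE E s t M).indicator (1 : ℝ → ℝ) x =
            volume.real (lateE E s t M) := by
          rw [integral_indicator_one (hlm M), measureReal_restrict_apply (hlm M),
            Set.inter_eq_left.2 fun x hx => hx.1]
        rw [← h2]
        refine setIntegral_mono_on ((hFi.const_mul 2).sub hF2i) ?_ measurableSet_Ioc hind
        exact (integrable_indicator_iff (hlm M)).2 (integrableOn_const
          (by
            refine ne_top_of_le_ne_top ?_ (Measure.restrict_apply_le _ _)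
            exact hlfin M))
      have h3 : ∫ x in Set.Ioc s t, (2 * F x - F x ^ 2) =
          2 * ∑ m ∈ T, Pm m - ∑ m ∈ T, ∑ k ∈ T, ∫ x in Set.Ioc s t, E m x * E k x := by
        rw [integral_sub (hFi.const_mul 2) hF2i, integral_const_mul]
        congr 1
        · rw [integral_finsetSum _ fun m _ => hEi m]
        · simp only [hF2]
          rw [integral_finsetSum _ fun m _ => integrable_finsetSum _ fun k _ => hEE m k]
          refine Finset.sum_congr rfl fun m _ => ?_
          rw [integral_finsetSum _ fun k _ => hEE m k]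
      have h4 : ∀ m ∈ T, ∑ k ∈ T, ∫ x in Set.Ioc s t, E m x * E k x ≤
          Pm m + K * w m * ∑ k ∈ T, w k := by
        intro m hm
        rw [hT, mem_Ico] at hm
        have h5 : ∀ k ∈ T, ∫ x in Set.Ioc s t, E m x * E k x ≤
            (if k = m then Pm m else 0) + K * w m * w k := by
          intro k hk
          rw [hT, mem_Ico] at hk
          have hwk := hwpos k (by omega)
          have hwm := hwpos m (by omega)
          rcases lt_trichotomy m k with h6 | h6 | h6
          · rw [if_neg (by omega), zero_add]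
            refine (hpair m (by omega) k h6).trans (le_of_eq (by ring))
          · rw [if_pos h6.symm, ← h6]
            have h7 : ∀ x, E m x * E m x = E m x := fun x => by
              rcases hE01 m x with h8 | h8 <;> rw [h8] <;> norm_num
            simp only [h7]
            have : 0 ≤ K * w m * w m := by positivity
            simp only [hPm]
            linarith
          · rw [if_neg (by omega), zero_add]
            have h7 : ∀ x, E m x * E k x = E k x * E m x := fun x => mul_comm _ _
            simp only [h7]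
            refine (hpair k (by omega) m h6).trans (le_of_eq (by ring))
        refine (Finset.sum_le_sum h5).trans ?_
        rw [Finset.sum_add_distrib, ← Finset.mul_sum, Finset.sum_ite_eq' T m]
        split_ifs with h6
        · exact le_rfl
        · exact absurd (by rw [hT, mem_Ico]; exact hm) h6
      have h5 : ∑ m ∈ T, ∑ k ∈ T, ∫ x in Set.Ioc s t, E m x * E k x ≤
          ∑ m ∈ T, Pm m + K * (v M - v N) ^ 2 := by
        refine (Finset.sum_le_sum h4).trans (le_of_eq ?_)
        rw [Finset.sum_add_distrib, ← Finset.sum_mul, ← Finset.mul_sum, hsumw M N hN]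
        ring
      have h6 : K * (v M - v N) ^ 2 ≤ K * v M ^ 2 := by
        refine mul_le_mul_of_nonneg_left ?_ hK.le
        exact pow_le_pow_left₀ (by linarith [hanti hN]) (by linarith [hvnn N]) 2
      have h7 := (hsumP N hN).1
      linarith
    have hlow' : (L - ε) * v M - K * v M ^ 2 ≤ volume.real (lateE E s t M) := by
      have h1 : Tendsto (fun N => (L - ε) * (v M - v N) - K * v M ^ 2) atTop
          (𝓝 ((L - ε) * (v M - 0) - K * v M ^ 2)) :=
        ((hv0.const_sub (v M)).const_mul (L - ε)).sub_const _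
      rw [sub_zero] at h1
      exact le_of_tendsto h1 (eventually_atTop.2 ⟨M, hlow⟩)
    have hvM := hvpos M
    rw [abs_le]
    constructor
    · rw [le_sub_iff_add_le, le_div_iff₀ hvM]
      nlinarith
    · rw [sub_le_iff_le_add, div_le_iff₀ hvM]
      have : 0 ≤ K * v M * v M := by positivity
      nlinarith
  rw [Metric.tendsto_nhds]
  intro ε hε
  have h1 : ∀ᶠ M in atTop, K * v M < ε / 2 := by
    have h2 := hv0.const_mul K
    rw [mul_zero] at h2
    exact h2.eventually_lt_const (by positivity)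
  filter_upwards [hmain (ε / 2) (by positivity), h1] with M h2 h3
  rw [Real.dist_eq]
  linarith


/-- weights of a lacunary sequence of exponents -/
lemma lac {q : ℕ → ℕ} (hq1 : ∀ m, 1 ≤ q m) (hq : ∀ m, 2 * q m ≤ q (m + 1)) :
    StrictMono q ∧ (∀ m, 1 ≤ m → 0 < wt (q m)) ∧ ∀ m k, m < k → 2 * q m ≤ q k := by
  have hqmono : StrictMono q := strictMono_nat_of_lt_succ fun m => by
    have := hq m; have := hq1 m; omega
  have hq2 : ∀ m, 1 ≤ m → 2 ≤ q m := fun m hm => by
    have h1 := hqmono.monotone hm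
    have h2 := hq 0
    have h3 := hq1 0
    rw [zero_add] at h2
    omega
  refine ⟨hqmono, fun m hm => ?_, fun m k hmk => (hq m).trans (hqmono.monotone hmk)⟩
  unfold wt
  have h2 : (2 : ℝ) ≤ q m := by exact_mod_cast hq2 m hm
  exact div_pos (Real.log_pos (by linarith)) (by linarith)

/-- **The measure of the late events**, amplitudes. -/
theorem tail_measure (ha : 0 < a) (hym : ∀ p, Measurable (y p))
    (hfam : ∀ a0 a1 : ℝ, a0 < a1 → ∀ᶠ p : ℕ in atTop, Sh a a0 a1 p (y p) (y' p))
    {q : ℕ → ℕ} (hq1 : ∀ m, 1 ≤ q m) (hq : ∀ m, 2 * q m ≤ q (m + 1))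
    {v : ℕ → ℝ} (hv : ∀ m, v m - v (m + 1) = wt (q m)) (hv0 : Tendsto v atTop (𝓝 0))
    (hvpos : ∀ m, 0 < v m) {s t : ℝ} (hst : s < t) :
    Tendsto (fun M => volume.real (late y q s t M) / v M) atTop
      (𝓝 (Real.exp Real.eulerMascheroniConstant * (t - s) / a)) := by
  obtain ⟨hqmono, hwpos, hq2'⟩ := lac hq1 hq
  have hqt : Tendsto q atTop atTop := hqmono.tendsto_atTop
  obtain ⟨n0, hn0⟩ : ∃ n : ℕ, t - s ≤ 2 ^ n := by
    obtain ⟨n, hn⟩ := exists_nat_gt (t - s)
    exact ⟨n, hn.le.trans (by exact_mod_cast (Nat.lt_two_pow_self).le)⟩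
  have hmean : Tendsto (fun m => (∫ x in Set.Ioc s t, ff (q m) (y (q m) x)) / wt (q m)) atTop
      (𝓝 (Real.exp Real.eulerMascheroniConstant * (t - s) / a)) := by
    have h1 := (mean_gen ha hym hfam n0 s t hst hn0).comp hqt
    refine h1.congr fun m => ?_
    simp only [Function.comp, wt]
    rw [div_div_eq_mul_div, mul_div_assoc]
  obtain ⟨K, hK, P1, hpair⟩ := pair_gen ha hfam hst
  obtain ⟨M1, hM1⟩ := eventually_atTop.1 (hqt.eventually_ge_atTop P1)
  have hts : 0 < t - s := by linarith
  exact tail_abstract (E := fun m x => ff (q m) (y (q m) x))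
    (fun m => (measurable_ff _).comp (hym _)) (fun m x => ff01 _ _) (fun m => wt_nonneg _) hwpos hv
    hv0 hvpos (by positivity) hK (M1 := M1) hmean
    (fun m hm k hmk => hpair (q m) (hM1 m hm) (q k) (hq2' m k hmk))

/-- **The measure of the late events**, bases. -/
theorem tail_base {y y' : ℕ → ℝ → ℝ} (hym : ∀ p, Measurable (y p))
    (hfam : ∀ a0 a1 : ℝ, 0 < a0 → a0 < a1 → ∃ D : ℝ, 0 ≤ D ∧ ∀ᶠ p : ℕ in atTop,
      Loc a0 a1 D p (y p) (y' p))
    {q : ℕ → ℕ} (hq1 : ∀ m, 1 ≤ q m) (hq : ∀ m, 2 * q m ≤ q (m + 1))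
    {v : ℕ → ℝ} (hv : ∀ m, v m - v (m + 1) = wt (q m)) (hv0 : Tendsto v atTop (𝓝 0))
    (hvpos : ∀ m, 0 < v m) {s t : ℝ} (hs : 0 < s) (hst : s < t) :
    Tendsto (fun M => volume.real (late y q s t M) / v M) atTop
      (𝓝 (Real.exp Real.eulerMascheroniConstant * (Real.log t - Real.log s))) := by
  obtain ⟨hqmono, hwpos, hq2'⟩ := lac hq1 hq
  have hqt : Tendsto q atTop atTop := hqmono.tendsto_atTop
  obtain ⟨D, hD, hLoc⟩ := hfam (s / 2) (t + 1) (by linarith) (by linarith)
  have hmean : Tendsto (fun m => (∫ x in Set.Ioc s t, ff (q m) (y (q m) x)) / wt (q m)) atTop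
      (𝓝 (Real.exp Real.eulerMascheroniConstant * (Real.log t - Real.log s))) := by
    have h1 := (mean_family (a0 := s / 2) (a1 := t + 1) (by linarith) hD hLoc (by linarith) hst
      (by linarith)).comp hqt
    refine h1.congr fun m => ?_
    simp only [Function.comp, wt]
    rw [div_div_eq_mul_div, mul_div_assoc]
  obtain ⟨K, hK, P1, hpair⟩ := pair_bound (a0 := s / 2) (a1 := t + 1) (D := D) (b0 := s) (b1 := t)
    (by linarith) hD (by linarith) (by linarith)
  obtain ⟨P2, hP2⟩ := eventually_atTop.1 hLoc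
  obtain ⟨P3, hP3⟩ := eventually_atTop.1 (gap_ok (show 0 < s / 2 by linarith))
  obtain ⟨M1, hM1⟩ := eventually_atTop.1 (hqt.eventually_ge_atTop (P1 + P2 + P3 + 1))
  have hlog : 0 ≤ Real.log t - Real.log s := by
    have := Real.log_le_log hs hst.le
    linarith
  refine tail_abstract (E := fun m x => ff (q m) (y (q m) x))
    (fun m => (measurable_ff _).comp (hym _)) (fun m x => ff01 _ _) (fun m => wt_nonneg _) hwpos hv
    hv0 hvpos (by positivity) (K := K * (2 * ((t - s) + 1))) (by nlinarith) (M1 := M1) hmean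
    (fun m hm k hmk => ?_)
  have hp := hM1 m hm
  have hpq := hq2' m k hmk
  have h3 := hpair (q m) (q k) (by omega) (by omega) _ _ _ _ (hP2 _ (by omega)) (hP2 _ (by omega)) (by
    have h4 := hP3 (q k) (by omega)
    have h5 : 2 * (q m : ℝ) ≤ q k := by exact_mod_cast hpq
    linarith) s t le_rfl hst.le le_rfl
  refine h3.trans ?_
  exact pair_simp hK.le (by linarith) (by omega) hpq

end Pool.Agent.N652.FM
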