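import Mathlib
import Pool.Agent.N652.FM.NSys
import Pool.Agent.N652.FM.Tail
import Pool.Agent.TH888.R.Base

set_option autoImplicit false

/-!
# Metric theorems for Fermat numbers and for arbitrary sets of exponents
-/

namespace Pool.Agent.N652.FM

open Finset Filter Topology MeasureTheory
open Pool.Agent.TH888.R (wt wt_nonneg wt_le_one ff01 ae_windows near_base)
open Pool.Agent.W66X (ysh measurable_ysh trans_shift ae_of_exp')
open Pool.Agent.H447R2.ML (Sh Loc sh_of ff_eq_floor fam_of)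
open Pool.Agent.H305R2 (roughPart ff)

/-- the perturbation `1` -/
def g1 : ℕ → ℝ := fun _ => 1

lemma g1_bound (p : ℕ) : |g1 p| ≤ 1 * (1 : ℝ) ^ p := by simp [g1]

lemma fam1 {α : ℝ} (hα : 1 < α) : ∀ a0 a1 : ℝ, a0 < a1 → ∀ᶠ p : ℕ in atTop,
    Sh (Real.log α) a0 a1 p (ysh α g1 p)
      (fun t => Real.exp (Real.log α * p + t) / (Real.exp (Real.log α * p + t) + g1 p)) :=
  fun a0 a1 _ => sh_of (by linarith) zero_le_one hα g1_bound a0 a1

/-- almost every amplitude is generic -/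
lemma ae_generic {α : ℝ} (hα : 1 < α) :
    ∀ᵐ t : ℝ, ∀ p m : ℕ, Real.exp t * α ^ p + 1 ≠ m := by
  have hα0 : 0 < α := by linarith
  have hnull : volume (⋃ p : ℕ, ⋃ m : ℕ, {t : ℝ | Real.exp t * α ^ p + 1 = m}) = 0 := by
    refine Set.Countable.measure_zero ?_ volume
    refine Set.countable_iUnion fun p => Set.countable_iUnion fun m => ?_
    refine Set.Subsingleton.countable ?_
    intro s hs t ht
    simp only [Set.mem_ofPred_eq] at hs ht
    have h3 : Real.exp s * α ^ p = Real.exp t * α ^ p := by linarith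
    exact Real.exp_injective (mul_right_cancel₀ (pow_pos hα0 p).ne' h3)
  have hae : ∀ᵐ t : ℝ, t ∉ ⋃ p : ℕ, ⋃ m : ℕ, {t : ℝ | Real.exp t * α ^ p + 1 = m} := by
    rw [ae_iff]
    refine measure_mono_null (fun t ht => ?_) hnull
    simpa only [Set.mem_ofPred_eq, not_not] using ht
  filter_upwards [hae] with t ht p m hm
  refine ht ?_
  simp only [Set.mem_iUnion]
  exact ⟨p, m, hm⟩

/-- the events in terms of the rough parts -/
lemma ff_iff {α : ℝ} (hα : 1 < α) {t : ℝ} (ht : ∀ p m : ℕ, Real.exp t * α ^ p + 1 ≠ m) (p : ℕ) :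
    ff p (ysh α g1 p t) = 1 ↔ (roughPart p (⌊Real.exp t * α ^ p⌋₊ + 1)).Prime := by
  have hα0 : 0 < α := by linarith
  have h0 : 0 ≤ Real.exp t * α ^ p := by positivity
  have h1 : ff p (ysh α g1 p t) =
      if (roughPart p ⌊Real.exp t * α ^ p + 1⌋₊).Prime then 1 else 0 :=
    ff_eq_floor (p := p) (v := Real.exp t * α ^ p + 1) (by linarith) (ht p)
  rw [h1, Nat.floor_add_one h0]
  split_ifs with h2
  · simp [h2]
  · simp [h2]

/-- The `2 ^ (m + k)`-rough part of `⌊β b ^ (2 ^ m)⌋ + 1`. -/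
noncomputable def WF (b : ℝ) (k : ℕ) (β : ℝ) (m : ℕ) : ℕ :=
  roughPart (2 ^ (m + k)) (⌊β * b ^ 2 ^ m⌋₊ + 1)

section fermat

variable {b : ℝ} {k : ℕ}

/-- the base with `α ^ (2 ^ k) = b` -/
noncomputable def al (b : ℝ) (k : ℕ) : ℝ := b ^ (((2 ^ k : ℕ) : ℝ)⁻¹)

lemma al_pow (hb : 1 < b) (m : ℕ) : al b k ^ 2 ^ (m + k) = b ^ 2 ^ m := by
  have h1 : al b k ^ 2 ^ k = b :=
    Real.rpow_inv_natCast_pow (by linarith) (by positivity)
  rw [add_comm, pow_add, pow_mul, h1]

lemma one_lt_al (hb : 1 < b) : 1 < al b k :=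
  Real.one_lt_rpow hb (by positivity)

lemma log_al (hb : 1 < b) : Real.log (al b k) = Real.log b / 2 ^ k := by
  unfold al
  rw [Real.log_rpow (by linarith)]
  push_cast
  ring

/-- the sum of the weights from `M` on -/
noncomputable def vv (k m : ℕ) : ℝ := Real.log 2 * (m + k + 1) * 2 / 2 ^ (m + k)

lemma vv_pos (k m : ℕ) : 0 < vv k m := by
  unfold vv
  have := Real.log_pos (show (1 : ℝ) < 2 by norm_num)
  positivity

lemma vv_sub (k m : ℕ) : vv k m - vv k (m + 1) = wt (2 ^ (m + k)) := by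
  unfold vv wt
  push_cast
  rw [Real.log_pow, show m + 1 + k = (m + k) + 1 by ring, pow_succ]
  push_cast
  field_simp
  ring

lemma vv_lim (k : ℕ) : Tendsto (vv k) atTop (𝓝 0) := by
  have h1 := (tendsto_self_mul_const_pow_of_lt_one (r := (1 / 2 : ℝ)) (by norm_num) (by norm_num)).comp
    (tendsto_add_atTop_nat (k + 1))
  have h2 := h1.const_mul (Real.log 2 * 4)
  rw [mul_zero] at h2
  refine h2.congr fun m => ?_
  simp only [Function.comp]
  unfold vv
  push_cast
  rw [show m + (k + 1) = (m + k) + 1 by ring, pow_succ, one_div, inv_pow]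
  field_simp
  ring

/-- the late events and the rough parts -/
lemma late_ae (hb : 1 < b) (s t : ℝ) (M : ℕ) :
    {u : ℝ | u ∈ Set.Ioc s t ∧ ∃ m, M ≤ m ∧ (WF b k (Real.exp u) m).Prime} =ᵐ[volume]
      late (ysh (al b k) g1) (fun m => 2 ^ (m + k)) s t M := by
  filter_upwards [ae_generic (one_lt_al (k := k) hb)] with u hu
  refine propext ?_
  show (u ∈ Set.Ioc s t ∧ ∃ m, M ≤ m ∧ (WF b k (Real.exp u) m).Prime) ↔
    (u ∈ Set.Ioc s t ∧ ∃ m, M ≤ m ∧ ff (2 ^ (m + k)) (ysh (al b k) g1 (2 ^ (m + k)) u) = 1)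
  refine and_congr_right fun _ => exists_congr fun m => and_congr_right fun _ => ?_
  rw [ff_iff (one_lt_al hb) hu, al_pow hb]
  rfl

/-- **The measure of the amplitudes with a late prime.** -/
theorem fermat_measure (hb : 1 < b) (k : ℕ) {s t : ℝ} (hst : s < t) :
    Tendsto (fun M : ℕ => volume.real
      {u : ℝ | u ∈ Set.Ioc s t ∧ ∃ m, M ≤ m ∧ (WF b k (Real.exp u) m).Prime} *
        (2 ^ M / (2 * M + 2 * k + 2))) atTop
      (𝓝 (Real.exp Real.eulerMascheroniConstant * (Real.log 2 / Real.log b) * (t - s))) := by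
  have hα := one_lt_al (k := k) hb
  have ha : 0 < Real.log (al b k) := Real.log_pos hα
  have key := tail_measure ha (measurable_ysh (al b k) g1) (fam1 hα) (q := fun m => 2 ^ (m + k))
    (fun m => Nat.one_le_two_pow) (fun m => by
      rw [show m + 1 + k = (m + k) + 1 by ring, pow_succ]
      omega) (v := vv k) (vv_sub k) (vv_lim k) (vv_pos k) hst
  have h1 := key.mul_const (Real.log 2 / 2 ^ k)
  have hlb : 0 < Real.log b := Real.log_pos hb
  have e : Real.exp Real.eulerMascheroniConstant * (t - s) / Real.log (al b k) * (Real.log 2 / 2 ^ k) =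
      Real.exp Real.eulerMascheroniConstant * (Real.log 2 / Real.log b) * (t - s) := by
    rw [log_al hb]
    field_simp
  rw [e] at h1
  refine h1.congr fun M => ?_
  have h2 : volume.real {u : ℝ | u ∈ Set.Ioc s t ∧ ∃ m, M ≤ m ∧ (WF b k (Real.exp u) m).Prime} =
      volume.real (late (ysh (al b k) g1) (fun m => 2 ^ (m + k)) s t M) :=
    measureReal_congr (late_ae hb s t M)
  rw [h2]
  have hv := vv_pos k M
  have h3 : (Real.log 2 / 2 ^ k) / vv k M = 2 ^ M / (2 * M + 2 * k + 2) := by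
    have hl2 := Real.log_pos (show (1 : ℝ) < 2 by norm_num)
    unfold vv
    rw [pow_add]
    field_simp
  rw [← h3]
  ring

/-- a limit superior of sets with measures tending to zero -/
lemma null_of_tail {Q : ℝ → ℕ → Prop} {k : ℕ} {s t c : ℝ}
    (h : Tendsto (fun M : ℕ => volume.real {u : ℝ | u ∈ Set.Ioc s t ∧ ∃ m, M ≤ m ∧ Q u m} *
        (2 ^ M / (2 * M + 2 * k + 2))) atTop (𝓝 c)) :
    ∀ᵐ u : ℝ, u ∈ Set.Ioc s t → {m : ℕ | Q u m}.Finite := by
  rw [ae_iff]
  set B : ℕ → Set ℝ := fun M => {u : ℝ | u ∈ Set.Ioc s t ∧ ∃ m, M ≤ m ∧ Q u m} with hB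
  have hsub : ∀ M, {u : ℝ | ¬ (u ∈ Set.Ioc s t → {m : ℕ | Q u m}.Finite)} ⊆ B M := by
    intro M u hu
    simp only [Set.mem_ofPred_eq, Classical.not_imp] at hu
    refine ⟨hu.1, ?_⟩
    have hinf : {m : ℕ | Q u m}.Infinite := hu.2
    obtain ⟨m, hm1, hm2⟩ := hinf.exists_gt M
    exact ⟨m, hm2.le, hm1⟩
  have hfin : ∀ M, volume (B M) ≠ ⊤ := fun M =>
    ne_top_of_le_ne_top (by simp [Real.volume_Ioc])
      (measure_mono (fun x hx => hx.1) : _ ≤ volume (Set.Ioc s t))
  have hlim : Tendsto (fun M : ℕ => volume.real (B M)) atTop (𝓝 0) := by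
    have h2 : Tendsto (fun M : ℕ => (2 * (M : ℝ) + 2 * k + 2) / 2 ^ M) atTop (𝓝 0) := by
      have h3 := (vv_lim k).const_mul (2 ^ k / Real.log 2)
      rw [mul_zero] at h3
      refine h3.congr fun M => ?_
      have hl2 := Real.log_pos (show (1 : ℝ) < 2 by norm_num)
      unfold vv
      rw [pow_add]
      field_simp
    have h3 := h.mul h2
    rw [mul_zero] at h3
    refine h3.congr fun M => ?_
    have h4 : (0 : ℝ) < 2 * M + 2 * k + 2 := by positivity
    show volume.real (B M) * (2 ^ M / (2 * M + 2 * k + 2)) * ((2 * (M : ℝ) + 2 * k + 2) / 2 ^ M) =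
      volume.real (B M)
    field_simp
  have hle : ∀ M : ℕ, volume.real {u : ℝ | ¬ (u ∈ Set.Ioc s t → {m : ℕ | Q u m}.Finite)} ≤
      volume.real (B M) := fun M => measureReal_mono (hsub M) (hfin M)
  have h0 := ge_of_tendsto' hlim hle
  have h1 : volume.real {u : ℝ | ¬ (u ∈ Set.Ioc s t → {m : ℕ | Q u m}.Finite)} = 0 :=
    le_antisymm h0 measureReal_nonneg
  exact (measureReal_eq_zero_iff (ne_top_of_le_ne_top (hfin 0) (measure_mono (hsub 0)))).1 h1

/-- **Almost every amplitude has finitely many primes.** -/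
theorem fermat_finite (hb : 1 < b) (k : ℕ) :
    ∀ᵐ β : ℝ, 0 < β → {m : ℕ | (WF b k β m).Prime}.Finite := by
  refine ae_of_exp' (P := fun β : ℝ => {m : ℕ | (WF b k β m).Prime}.Finite)
    (ae_windows fun b0 => ?_)
  rw [ae_restrict_iff' measurableSet_Ioc]
  exact null_of_tail (Q := fun u m => (WF b k (Real.exp u) m).Prime)
    (fermat_measure hb k (s := b0) (t := b0 + 1) (by linarith))

/-! ### Bases -/

/-- the phase functions of the bases -/
noncomputable def yb (p : ℕ) (t : ℝ) : ℝ := Real.log (Real.exp (p * t) + 1)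

lemma measurable_yb (p : ℕ) : Measurable (yb p) :=
  Real.measurable_log.comp ((Real.measurable_exp.comp (measurable_const.mul measurable_id)).add_const _)

lemma fam_yb : ∀ a0 a1 : ℝ, 0 < a0 → a0 < a1 → ∃ D : ℝ, 0 ≤ D ∧ ∀ᶠ p : ℕ in atTop,
    Loc a0 a1 D p (yb p) (fun t => p * Real.exp (p * t) / (Real.exp (p * t) + 1) + 0) :=
  fam_of (ε := 1) (by norm_num) (H := fun _ => 0) (H' := fun _ => 0)
    (fun t _ => hasDerivAt_const t 0) continuousOn_const (fun p _ t _ => by simp [yb])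

/-- almost every base is generic -/
lemma ae_generic_base : ∀ᵐ t : ℝ, 0 < t → ∀ p m : ℕ, 1 ≤ p → Real.exp (p * t) + 1 ≠ m := by
  have hnull : volume (⋃ p : ℕ, ⋃ m : ℕ, {t : ℝ | 1 ≤ p ∧ Real.exp (p * t) + 1 = m}) = 0 := by
    refine Set.Countable.measure_zero ?_ volume
    refine Set.countable_iUnion fun p => Set.countable_iUnion fun m => ?_
    refine Set.Subsingleton.countable ?_
    rintro s ⟨hp, hs⟩ t ⟨_, ht⟩
    have hp0 : (0 : ℝ) < p := by exact_mod_cast hp
    have h3 : Real.exp (p * s) = Real.exp (p * t) := by linarith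
    exact mul_left_cancel₀ hp0.ne' (Real.exp_injective h3)
  have hae : ∀ᵐ t : ℝ, t ∉ ⋃ p : ℕ, ⋃ m : ℕ, {t : ℝ | 1 ≤ p ∧ Real.exp (p * t) + 1 = m} := by
    rw [ae_iff]
    refine measure_mono_null (fun t ht => ?_) hnull
    simpa only [Set.mem_ofPred_eq, not_not] using ht
  filter_upwards [hae] with t ht _ p m hp hm
  refine ht ?_
  simp only [Set.mem_iUnion]
  exact ⟨p, m, hp, hm⟩

lemma ff_iff_base {t : ℝ} (ht : ∀ p m : ℕ, 1 ≤ p → Real.exp (p * t) + 1 ≠ m) {p : ℕ} (hp : 1 ≤ p) :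
    ff p (yb p t) = 1 ↔ (roughPart p (⌊Real.exp (p * t)⌋₊ + 1)).Prime := by
  have h0 := Real.exp_pos (p * t)
  have h1 : ff p (yb p t) =
      if (roughPart p ⌊Real.exp (p * t) + 1⌋₊).Prime then 1 else 0 :=
    ff_eq_floor (p := p) (v := Real.exp (p * t) + 1) (by linarith) (fun m => ht p m hp)
  rw [h1, Nat.floor_add_one h0.le]
  split_ifs with h2
  · simp [h2]
  · simp [h2]

/-- **The measure of the bases with a late prime.** -/
theorem base_measure (k : ℕ) {s t : ℝ} (hs : 0 < s) (hst : s < t) :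
    Tendsto (fun M : ℕ => volume.real
      {u : ℝ | u ∈ Set.Ioc s t ∧ ∃ m, M ≤ m ∧ (WF (Real.exp u) k 1 m).Prime} *
        (2 ^ M / (2 * M + 2 * k + 2))) atTop
      (𝓝 (Real.exp Real.eulerMascheroniConstant * Real.log 2 * (Real.log t - Real.log s))) := by
  have h2k : (0 : ℝ) < 2 ^ k := by positivity
  have key := tail_base measurable_yb fam_yb (q := fun m => 2 ^ (m + k))
    (fun m => Nat.one_le_two_pow) (fun m => by
      rw [show m + 1 + k = (m + k) + 1 by ring, pow_succ]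
      omega) (v := vv k) (vv_sub k) (vv_lim k) (vv_pos k) (s := s / 2 ^ k) (t := t / 2 ^ k)
      (by positivity) (by gcongr)
  have e : Real.log (t / 2 ^ k) - Real.log (s / 2 ^ k) = Real.log t - Real.log s := by
    rw [Real.log_div (by linarith) h2k.ne', Real.log_div hs.ne' h2k.ne']
    ring
  rw [e] at key
  have h1 := key.mul_const (Real.log 2)
  have e2 : Real.exp Real.eulerMascheroniConstant * (Real.log t - Real.log s) * Real.log 2 =
      Real.exp Real.eulerMascheroniConstant * Real.log 2 * (Real.log t - Real.log s) := by ring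
  rw [e2] at h1
  refine h1.congr fun M => ?_
  set B : Set ℝ := {u : ℝ | u ∈ Set.Ioc s t ∧ ∃ m, M ≤ m ∧ (WF (Real.exp u) k 1 m).Prime} with hB
  have h2 : volume ((fun x : ℝ => 2 ^ k * x) ⁻¹' B) = ENNReal.ofReal |((2 : ℝ) ^ k)⁻¹| * volume B :=
    Real.volume_preimage_mul_left h2k.ne' B
  have h3 : ((fun x : ℝ => 2 ^ k * x) ⁻¹' B : Set ℝ) =ᵐ[volume]
      late yb (fun m => 2 ^ (m + k)) (s / 2 ^ k) (t / 2 ^ k) M := by
    filter_upwards [ae_generic_base] with u hu
    refine propext ?_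
    show (2 ^ k * u ∈ Set.Ioc s t ∧ ∃ m, M ≤ m ∧ (WF (Real.exp (2 ^ k * u)) k 1 m).Prime) ↔
      (u ∈ Set.Ioc (s / 2 ^ k) (t / 2 ^ k) ∧ ∃ m, M ≤ m ∧ ff (2 ^ (m + k)) (yb (2 ^ (m + k)) u) = 1)
    have hmem : 2 ^ k * u ∈ Set.Ioc s t ↔ u ∈ Set.Ioc (s / 2 ^ k) (t / 2 ^ k) := by
      rw [Set.mem_Ioc, Set.mem_Ioc, div_lt_iff₀ h2k, le_div_iff₀ h2k, mul_comm u]
    rw [hmem]
    refine and_congr_right fun h => exists_congr fun m => and_congr_right fun _ => ?_
    have hu0 : 0 < u := lt_trans (by positivity) h.1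
    rw [ff_iff_base (hu hu0) Nat.one_le_two_pow]
    unfold WF
    have h5 : (1 : ℝ) * Real.exp (2 ^ k * u) ^ 2 ^ m = Real.exp (((2 ^ (m + k) : ℕ) : ℝ) * u) := by
      rw [one_mul, ← Real.exp_nat_mul]
      congr 1
      push_cast
      rw [pow_add]
      ring
    rw [h5]
  have h4 : volume.real (late yb (fun m => 2 ^ (m + k)) (s / 2 ^ k) (t / 2 ^ k) M) =
      ((2 : ℝ) ^ k)⁻¹ * volume.real B := by
    rw [← measureReal_congr h3, measureReal_def, h2, ENNReal.toReal_mul,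
      ENNReal.toReal_ofReal (abs_nonneg _), abs_of_pos (by positivity)]
    rfl
  rw [h4]
  have hl2 := Real.log_pos (show (1 : ℝ) < 2 by norm_num)
  unfold vv
  rw [pow_add]
  field_simp

/-- **Almost every base has finitely many primes.** -/
theorem base_finite (k : ℕ) : ∀ᵐ b : ℝ, 1 < b → {m : ℕ | (WF b k 1 m).Prime}.Finite := by
  have h1 : ∀ᵐ x : ℝ, 0 < x → (1 < x → {m : ℕ | (WF x k 1 m).Prime}.Finite) := by
    refine ae_of_exp' (P := fun b : ℝ => 1 < b → {m : ℕ | (WF b k 1 m).Prime}.Finite) ?_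
    have h2 : ∀ n : ℕ, ∀ᵐ u : ℝ, u ∈ Set.Ioc (1 / ((n : ℝ) + 2)) (n + 2) →
        {m : ℕ | (WF (Real.exp u) k 1 m).Prime}.Finite := fun n => by
      have hn : (0 : ℝ) < (n : ℝ) + 2 := by positivity
      exact null_of_tail (Q := fun u m => (WF (Real.exp u) k 1 m).Prime)
        (base_measure k (s := 1 / ((n : ℝ) + 2)) (t := n + 2) (by positivity) (by
          rw [div_lt_iff₀ hn]
          nlinarith [(Nat.cast_nonneg n : (0 : ℝ) ≤ n)]))
    filter_upwards [ae_all_iff.2 h2] with u hu h1u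
    have hu0 : 0 < u := Real.one_lt_exp_iff.1 h1u
    obtain ⟨n, hn⟩ := exists_nat_gt (max u (1 / u))
    refine hu n ⟨?_, ?_⟩
    · have h3 : 1 / u < n := lt_of_le_of_lt (le_max_right _ _) hn
      rw [div_lt_iff₀ hu0] at h3
      rw [div_lt_iff₀ (by positivity)]
      nlinarith
    · have h3 : u < n := lt_of_le_of_lt (le_max_left _ _) hn
      linarith
  filter_upwards [h1] with x hx h2
  exact hx (by linarith) h2

end fermat

/-! ### Arbitrary sets of exponents -/

lemma nsys_one {b : ℕ} (hb : 2 ≤ b) (b0 : ℝ) :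
    NSys (volume.restrict (Set.Ioc b0 (b0 + 1))) (fun p t => ff p (ysh b g1 p t))
      (fun p t => Pool.Agent.H305R2.LL p (ysh b g1 p t))
      (fun _ => Real.exp Real.eulerMascheroniConstant / Real.log b) := by
  have hb1 : (1 : ℝ) < b := by exact_mod_cast (by omega : 1 < b)
  exact nsys_sh (Real.log_pos hb1) (measurable_ysh b g1) (fam1 hb1)
    (fun b0 => trans_shift hb1 zero_le_one hb1 g1_bound b0)
    (near_base (κ := 1) (C := 1) hb zero_le_one hb1 g1_bound) b0

/-- **The zero-one law for arbitrary sets of exponents.** -/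
theorem zero_one {b : ℕ} (hb : 2 ≤ b) (S : Set ℕ) : ∀ᵐ β : ℝ, 0 < β →
    ({n : ℕ | n ∈ S ∧ (roughPart n (⌊β * (b : ℝ) ^ n⌋₊ + 1)).Prime}.Infinite ↔
      ¬ Summable (S.indicator fun n : ℕ => Real.log n / n)) := by
  have hb1 : (1 : ℝ) < b := by exact_mod_cast (by omega : 1 < b)
  refine ae_of_exp' (P := fun β : ℝ =>
    ({n : ℕ | n ∈ S ∧ (roughPart n (⌊β * (b : ℝ) ^ n⌋₊ + 1)).Prime}.Infinite ↔
      ¬ Summable (S.indicator fun n : ℕ => Real.log n / n))) (ae_windows fun b0 => ?_)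
  have hset : ∀ t : ℝ, (∀ p m : ℕ, Real.exp t * (b : ℝ) ^ p + 1 ≠ m) →
      {n : ℕ | n ∈ S ∧ ff n (ysh b g1 n t) = 1} =
        {n : ℕ | n ∈ S ∧ (roughPart n (⌊Real.exp t * (b : ℝ) ^ n⌋₊ + 1)).Prime} := by
    intro t ht
    ext n
    exact and_congr_right fun _ => ff_iff hb1 ht n
  by_cases hsum : Summable (S.indicator fun n : ℕ => Real.log n / n)
  · filter_upwards [(nsys_one hb b0).fin S hsum, ae_restrict_of_ae (ae_generic hb1)] with t h1 h2
    rw [hset t h2] at h1
    constructor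
    · intro h3
      exact absurd h1 h3
    · intro h3
      exact absurd hsum h3
  · have hdiv : ∀ B : ℝ, ∃ T : Finset ℕ, (∀ q ∈ T, q ∈ S) ∧ B < ∑ q ∈ T, wt q := by
      by_contra hcon
      push Not at hcon
      obtain ⟨B, hB⟩ := hcon
      refine hsum (summable_of_sum_le (c := B) (fun q =>
        Set.indicator_nonneg (fun q _ => wt_nonneg q) q) fun T => ?_)
      classical
      have h1 := hB (T.filter (fun q => q ∈ S)) (fun q hq => (mem_filter.1 hq).2)
      refine le_trans (le_of_eq ?_) h1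
      rw [Finset.sum_filter]
      refine Finset.sum_congr rfl fun q _ => ?_
      by_cases hq : q ∈ S
      · rw [Set.indicator_of_mem hq, if_pos hq]; rfl
      · rw [Set.indicator_of_notMem hq, if_neg hq]
    filter_upwards [(nsys_one hb b0).inf S hdiv, ae_restrict_of_ae (ae_generic hb1)] with t h1 h2
    rw [hset t h2] at h1
    exact ⟨fun _ => hsum, fun _ => h1⟩

/-! ### The amplitude one -/

lemma rough_self {z n : ℕ} (hn : n ≠ 0) (h : ∀ p : ℕ, p.Prime → p ∣ n → z < p) :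
    roughPart z n = n := by
  unfold roughPart
  rw [List.filter_eq_self.2 fun p hp => by
    simpa using h p (Nat.prime_of_mem_primeFactorsList hp) (Nat.dvd_of_mem_primeFactorsList hp)]
  exact Nat.prod_primeFactorsList hn

lemma WF_fermat {m : ℕ} (hm : 2 ≤ m) : WF 2 2 1 m = Nat.fermatNumber m := by
  have e : ⌊(1 : ℝ) * 2 ^ 2 ^ m⌋₊ + 1 = Nat.fermatNumber m := by
    unfold Nat.fermatNumber
    congr 1
    rw [one_mul]
    exact_mod_cast Nat.floor_natCast (R := ℝ) (2 ^ 2 ^ m)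
  unfold WF
  rw [e]
  refine rough_self (by have := Nat.three_le_fermatNumber m; omega) fun p hp hd => ?_
  obtain ⟨j, rfl⟩ := Nat.fermat_primeFactors_one_lt m p (by omega) hp hd
  have hj : 0 < j := by
    rcases Nat.eq_zero_or_pos j with rfl | h
    · simp [Nat.not_prime_one] at hp
    · exact h
  nlinarith [Nat.one_le_two_pow (n := m + 2)]

lemma WF_even {b : ℕ} (hb : Even b) (m : ℕ) : WF b 1 1 m = b ^ 2 ^ m + 1 := by
  have e : ⌊(1 : ℝ) * (b : ℝ) ^ 2 ^ m⌋₊ + 1 = b ^ 2 ^ m + 1 := by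
    congr 1
    rw [one_mul]
    exact_mod_cast Nat.floor_natCast (R := ℝ) (b ^ 2 ^ m)
  unfold WF
  rw [e]
  refine rough_self (by omega) fun p hp hd => ?_
  have hp2 : p ≠ 2 := by
    rintro rfl
    have h1 : Even (b ^ 2 ^ m) := hb.pow_of_ne_zero (by positivity)
    have h2 : Even (b ^ 2 ^ m + 1) := even_iff_two_dvd.2 hd
    exact (Nat.even_add_one.1 h2) h1
  obtain ⟨j, rfl⟩ := Nat.pow_pow_add_primeFactors_one_lt hp hp2 hd
  have hj : 0 < j := by
    rcases Nat.eq_zero_or_pos j with rfl | h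
    · simp [Nat.not_prime_one] at hp
    · exact h
  nlinarith [Nat.one_le_two_pow (n := m + 1)]

end Pool.Agent.N652.FM
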